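import Pool.Agent.R693.Q.Sep

/-!
The annihilator of the simple module is not zero.
-/

set_option autoImplicit false
set_option linter.unusedSectionVars false

namespace Pool.Agent.R693.Q

open MvPolynomial

section count
variable {F : Type} [Field F] [CharZero F] {K : ℕ}

/-- The exponents in a box. -/
noncomputable def Box (K B : ℕ) : Finset (Fin K → ℤ) := Fintype.piFinset fun _ => Finset.Icc (-(B : ℤ)) B

lemma Box_card (K B : ℕ) : (Box K B).card = (2 * B + 1) ^ K := by
  unfold Box
  rw [Fintype.card_piFinset_const, Int.card_Icc]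
  congr 1
  omega

lemma mem_Box {K B : ℕ} {κ : Fin K → ℤ} : κ ∈ Box K B ↔ ∀ s, |κ s| ≤ B := by
  unfold Box
  rw [Fintype.mem_piFinset]
  simp only [Finset.mem_Icc, abs_le]

/-- Lists of bounded length. -/
noncomputable def LL (K d : ℕ) : Finset (List (Fin K)) :=
  (List.finite_length_le (Fin K) d).toFinset

lemma mem_LL {K d : ℕ} {l : List (Fin K)} : l ∈ LL K d ↔ l.length ≤ d := by
  unfold LL
  rw [Set.Finite.mem_toFinset]
  rfl

variable (F) in
/-- The spanning set. -/
noncomputable def SS (K d B : ℕ) : Finset (GG F K) := by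
  classical
  exact (LL K d ×ˢ Box K B).image fun p => Finsupp.single p.2 (Noeth.wd (mX (Fin K) F) 1 p.1)

lemma SS_card (K d B : ℕ) : (SS F K d B).card ≤ (LL K d).card * (2 * B + 1) ^ K := by
  classical
  unfold SS
  refine le_trans Finset.card_image_le ?_
  rw [Finset.card_product, Box_card]

lemma single_mem {d B : ℕ} {κ : Fin K → ℤ} (hκ : κ ∈ Box K B) {g : MvPolynomial (Fin K) F}
    (hg : g ∈ LT (Fin K) F (d + 1)) :
    Finsupp.single κ g ∈ Submodule.span F (SS F K d B : Set (GG F K)) := by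
  classical
  unfold LT Noeth.Fl at hg
  induction hg using Submodule.span_induction with
  | mem y hy =>
    obtain ⟨w, hw, rfl⟩ := hy
    apply Submodule.subset_span
    rw [Finset.mem_coe, SS, Finset.mem_image]
    exact ⟨(w, κ), Finset.mem_product.mpr
      ⟨mem_LL.mpr (show w.length ≤ d by omega), hκ⟩, rfl⟩
  | zero => rw [Finsupp.single_zero]; exact Submodule.zero_mem _
  | add y z _ _ hy hz => rw [Finsupp.single_add]; exact Submodule.add_mem _ hy hz
  | smul a y _ hy =>
    rw [← Finsupp.smul_single]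
    exact Submodule.smul_mem _ _ hy

lemma xg_mem {d B b : ℕ} {n : ℤ} (hn : |n - 1| ≤ b) {γ : GG F K}
    (hγ : γ ∈ Submodule.span F (SS F K d B : Set (GG F K))) :
    xg F n γ ∈ Submodule.span F (SS F K (d + 1) (B + b) : Set (GG F K)) := by
  classical
  induction hγ using Submodule.span_induction with
  | mem y hy =>
    rw [Finset.mem_coe, SS, Finset.mem_image] at hy
    obtain ⟨⟨w, κ⟩, hp, rfl⟩ := hy
    obtain ⟨hw, hκ⟩ := Finset.mem_product.mp hp
    rw [mem_LL] at hw
    rw [mem_Box] at hκ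
    dsimp only at hw hκ ⊢
    rw [xg_single]
    refine Submodule.neg_mem _ (Submodule.sum_mem _ fun s _ => ?_)
    apply single_mem
    · rw [mem_Box]
      intro r
      have h1 := hκ r
      rw [abs_le] at h1 hn ⊢
      push_cast
      rw [Pi.add_apply]
      by_cases hr : r = s
      · subst hr
        rw [Pi.single_eq_same]
        constructor <;> linarith [h1.1, h1.2, hn.1, hn.2]
      · rw [Pi.single_eq_of_ne hr]
        have : (0 : ℤ) ≤ b := by positivity
        constructor <;> linarith [h1.1, h1.2]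
    · apply X_mul_mem
      apply sh_mem
      exact Noeth.wd_mem (by omega)
  | zero => rw [map_zero]; exact Submodule.zero_mem _
  | add y z _ _ hy hz => rw [map_add]; exact Submodule.add_mem _ hy hz
  | smul a y _ hy => rw [map_smul]; exact Submodule.smul_mem _ _ hy

lemma gw_mem {b : ℕ} (w : List ℤ) (hw : ∀ n ∈ w, |n - 1| ≤ b) :
    gw F K w ∈ Submodule.span F (SS F K w.length (w.length * b) : Set (GG F K)) := by
  induction w with
  | nil =>
    rw [gw]
    apply single_mem
    · rw [mem_Box]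
      intro s
      simp
    · exact one_mem_LT
  | cons n w ih =>
    rw [gw, List.length_cons, add_mul, one_mul]
    exact xg_mem (hw n (by simp)) (ih fun m hm => hw m (by simp [hm]))

/-- The words. -/
def wf (K L : ℕ) (f : Fin (K + 1) → Fin L) : List ℤ :=
  List.ofFn fun i : Fin (K + 1) => (((i : ℕ) * L + (f i : ℕ) : ℕ) : ℤ)

lemma wf_sorted (K L : ℕ) (f : Fin (K + 1) → Fin L) : (wf K L f).Pairwise (· ≤ ·) := by
  unfold wf
  rw [List.pairwise_ofFn]
  intro i j hij
  have h1 : (i : ℕ) + 1 ≤ j := hij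
  have h2 := (f i).2
  have h3 : ((i : ℕ) + 1) * L ≤ j * L := Nat.mul_le_mul_right L h1
  have h4 : (i : ℕ) * L + f i ≤ j * L + f j := by
    rw [add_mul, one_mul] at h3
    omega
  exact_mod_cast h4

lemma wf_inj (K L : ℕ) : Function.Injective (wf K L) := by
  intro f g h
  unfold wf at h
  have h1 := List.ofFn_injective h
  funext i
  have h2 := congrFun h1 i
  beta_reduce at h2
  have h3 : (i : ℕ) * L + (f i : ℕ) = (i : ℕ) * L + (g i : ℕ) := by exact_mod_cast h2
  exact Fin.ext (by omega)

lemma wf_length (K L : ℕ) (f : Fin (K + 1) → Fin L) : (wf K L f).length = K + 1 := by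
  unfold wf
  rw [List.length_ofFn]

lemma wf_bound (K L : ℕ) (hL : 0 < L) (f : Fin (K + 1) → Fin L) :
    ∀ n ∈ wf K L f, |n - 1| ≤ ((K + 1) * L : ℕ) := by
  intro n hn
  unfold wf at hn
  rw [List.mem_ofFn] at hn
  obtain ⟨i, rfl⟩ := hn
  have h1 : (i : ℕ) * L + f i < (K + 1) * L := by
    have h2 := (f i).2
    have h3 : ((i : ℕ) + 1) * L ≤ (K + 1) * L := Nat.mul_le_mul_right L i.2
    rw [add_mul, one_mul] at h3
    omega
  have h4 : 1 ≤ (K + 1) * L := by
    have : 0 < (K + 1) * L := Nat.mul_pos (Nat.succ_pos K) hL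
    omega
  rw [abs_le]
  push_cast at *
  have h5 : (((i : ℕ) * L + (f i : ℕ) : ℕ) : ℤ) < (((K + 1) * L : ℕ) : ℤ) := by exact_mod_cast h1
  have h6 : (1 : ℤ) ≤ (((K + 1) * L : ℕ) : ℤ) := by exact_mod_cast h4
  push_cast at h5 h6
  constructor
  · have h7 : (0 : ℤ) ≤ (i : ℕ) * (L : ℤ) + ((f i : ℕ) : ℤ) := by positivity
    linarith
  · linarith

variable {A : Type} [Ring A] [Algebra F A] {e : ℤ → A}

/-- The annihilator is not zero. -/
theorem exists_ann {lam : Fin K → F} (h0 : ∀ s, lam s ≠ 0)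
    (hLI : LinearIndependent F (fun l : {l : List ℤ // l.Pairwise (· ≤ ·)} => W.wd e l.1))
    (Φ : A →ₐ[F] Module.End F (MvPolynomial (Fin K) F))
    (hΦ : ∀ n f, Φ (e n) f = XR (uu lam) n f) : ∃ u : A, u ≠ 0 ∧ Φ u = 0 := by
  classical
  set c : ℕ := 2 * ((K + 1) * (K + 1)) + 1 with hc
  set L : ℕ := (LL K (K + 1)).card * c ^ K + 1 with hL
  have hLpos : 0 < L := Nat.succ_pos _
  have hnot : ¬ LinearIndependent F (fun f : Fin (K + 1) → Fin L => gw F K (wf K L f)) := by
    intro h
    have h1 := linearIndependent_le_span_aux' _ h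
      (SS F K (K + 1) ((K + 1) * ((K + 1) * L)) : Set (GG F K)) (by
        rintro _ ⟨f, rfl⟩
        have := gw_mem (F := F) (K := K) (wf K L f) (wf_bound K L hLpos f)
        rwa [wf_length] at this)
    rw [Fintype.card_fun, Fintype.card_fin, Fintype.card_fin] at h1
    simp only [Finset.coe_sort_coe, Fintype.card_coe] at h1
    have h2 := SS_card (F := F) K (K + 1) ((K + 1) * ((K + 1) * L))
    have h3 : 2 * ((K + 1) * ((K + 1) * L)) + 1 ≤ c * L := by
      have h31 : c * L = 2 * ((K + 1) * ((K + 1) * L)) + L := by rw [hc]; ring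
      omega
    have h4 : (2 * ((K + 1) * ((K + 1) * L)) + 1) ^ K ≤ c ^ K * L ^ K := by
      rw [← mul_pow]
      exact Nat.pow_le_pow_left h3 K
    have h5 : (LL K (K + 1)).card * (2 * ((K + 1) * ((K + 1) * L)) + 1) ^ K ≤
        ((LL K (K + 1)).card * c ^ K) * L ^ K := by
      rw [mul_assoc]
      exact Nat.mul_le_mul_left _ h4
    have h6 : L ^ (K + 1) = L * L ^ K := by rw [pow_succ, mul_comm]
    have h7 : ((LL K (K + 1)).card * c ^ K) * L ^ K < L * L ^ K :=
      Nat.mul_lt_mul_of_pos_right (by omega) (pow_pos hLpos K)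
    omega
  rw [Fintype.not_linearIndependent_iff] at hnot
  obtain ⟨g, hg, i, hi⟩ := hnot
  refine ⟨∑ f, g f • W.wd e (wf K L f), ?_, ?_⟩
  · intro h
    have h1 := hLI.comp (fun f : Fin (K + 1) → Fin L =>
      (⟨wf K L f, wf_sorted K L f⟩ : {l : List ℤ // l.Pairwise (· ≤ ·)}))
      (fun f f' hff => wf_inj K L (congrArg Subtype.val hff))
    rw [Fintype.linearIndependent_iff] at h1
    exact hi (h1 g h i)
  · apply LinearMap.ext
    intro q
    rw [LinearMap.zero_apply]
    apply mul_left_cancel₀ (PI_ne (F := F) (K := K))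
    rw [mul_zero, map_sum, LinearMap.sum_apply, Finset.mul_sum]
    have h1 : ∀ f, PI (Fin K) F * Φ (g f • W.wd e (wf K L f)) q =
        Jt lam (g f • gw F K (wf K L f)) (PI (Fin K) F * q) := by
      intro f
      rw [map_smul, map_smul, LinearMap.smul_apply, LinearMap.smul_apply, gw_Jt h0 Φ hΦ,
        mul_smul_comm]
    rw [Finset.sum_congr rfl fun f _ => h1 f, ← LinearMap.sum_apply, ← map_sum, hg, map_zero,
      LinearMap.zero_apply]

end count

end Pool.Agent.R693.Q
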