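import Pool.Agent.R693.Q.Ops
import Pool.Agent.R693.W.Chain

/-!
The generic module: independence of the sorted words.
-/

set_option autoImplicit false
set_option linter.unusedSectionVars false

namespace Pool.Agent.R693.Q

open MvPolynomial

section scale
variable {σ : Type} {R : Type*} [CommRing R] [IsDomain R]

lemma coeff_scale (c : R) (f : MvPolynomial σ R) : ∀ a : σ →₀ ℕ,
    coeff a (aeval (fun j => c • (X j : MvPolynomial σ R)) f) = c ^ a.degree * coeff a f := by
  classical
  induction f using MvPolynomial.induction_on with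
  | C r =>
    intro a
    rw [aeval_C, algebraMap_eq, coeff_C]
    split_ifs with h
    · subst h
      simp
    · rw [mul_zero]
  | add p q hp hq =>
    intro a
    rw [map_add, coeff_add, hp, hq, coeff_add, mul_add]
  | mul_X p i hp =>
    intro a
    rw [map_mul, aeval_X, mul_smul_comm, coeff_smul, coeff_mul_X', coeff_mul_X']
    split_ifs with h
    · rw [hp, smul_eq_mul, ← mul_assoc, ← pow_succ']
      congr 2
      have h1 : a = (a - Finsupp.single i 1) + Finsupp.single i 1 := by
        rw [tsub_add_cancel_of_le]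
        rw [Finsupp.single_le_iff]
        exact Nat.one_le_iff_ne_zero.mpr (Finsupp.mem_support_iff.mp h)
      conv_rhs => rw [h1, map_add, Finsupp.degree_single]
    · rw [smul_zero, mul_zero]

lemma scale_inj {c : R} (hc : c ≠ 0) {f : MvPolynomial σ R}
    (h : aeval (fun j => c • (X j : MvPolynomial σ R)) f = 0) : f = 0 := by
  ext a
  have h1 := coeff_scale c f a
  rw [h, coeff_zero] at h1
  rw [coeff_zero]
  exact (mul_eq_zero.mp h1.symm).resolve_left (pow_ne_zero _ hc)

end scale

section inj
variable {K : ℕ} {R : Type*} [CommRing R] [IsDomain R]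

lemma char_nat {u : Fin K → ℤ → R} (hu : IsChar u) (s : Fin K) (j : ℕ) :
    u s (j : ℤ) = u s 1 ^ j := by
  induction j with
  | zero => rw [Nat.cast_zero, hu.zero, pow_zero]
  | succ j ih =>
    rw [Nat.cast_succ, hu.add, ih, pow_succ]

lemma yy_inj {u : Fin K → ℤ → R} (hu : IsChar u) (hinj : Function.Injective fun s => u s 1)
    {f : MvPolynomial (Fin K) R} (h : aeval (fun j : Fin K => yy u (j : ℤ)) f = 0) : f = 0 := by
  set V : Matrix (Fin K) (Fin K) R := Matrix.vandermonde (fun s => u s 1) with hV
  have hdet : V.det ≠ 0 := Matrix.det_vandermonde_ne_zero_iff.mpr hinj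
  apply scale_inj hdet
  set φ : MvPolynomial (Fin K) R →ₐ[R] MvPolynomial (Fin K) R :=
    aeval (fun s => -(u s 1 • ∑ i, V.adjugate i s • (X i : MvPolynomial (Fin K) R))) with hφ
  have h1 : ∀ j : Fin K, φ (yy u (j : ℤ)) = V.det • X j := by
    intro j
    unfold yy
    rw [map_neg, map_sum]
    have h2 : ∀ s, φ (u s ((j : ℤ) - 1) • X s) = -∑ i, (V.adjugate i s * V s j) • X i := by
      intro s
      rw [map_smul, hφ, aeval_X, smul_neg, smul_smul]
      congr 1
      rw [Finset.smul_sum]
      refine Finset.sum_congr rfl fun i _ => ?_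
      rw [smul_smul, ← hu.add, sub_add_cancel, char_nat hu, hV, Matrix.vandermonde_apply, mul_comm]
    rw [Finset.sum_congr rfl fun s _ => h2 s, Finset.sum_neg_distrib, neg_neg, Finset.sum_comm]
    have h3 : ∀ i, ∑ s, (V.adjugate i s * V s j) • (X i : MvPolynomial (Fin K) R) =
        (V.det • (1 : Matrix (Fin K) (Fin K) R)) i j • X i := by
      intro i
      rw [← Finset.sum_smul, ← Matrix.adjugate_mul, Matrix.mul_apply]
    rw [Finset.sum_congr rfl fun i _ => h3 i, Finset.sum_eq_single j]
    · rw [Matrix.smul_apply, Matrix.one_apply_eq, smul_eq_mul, mul_one]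
    · intro i _ hij
      rw [Matrix.smul_apply, Matrix.one_apply_ne hij, smul_zero, zero_smul]
    · intro h; exact absurd (Finset.mem_univ j) h
  have h4 : φ.comp (aeval fun j : Fin K => yy u (j : ℤ)) =
      aeval (fun j => V.det • (X j : MvPolynomial (Fin K) R)) := by
    apply algHom_ext
    intro j
    rw [AlgHom.comp_apply, aeval_X, aeval_X, h1]
  rw [← h4, AlgHom.comp_apply, h, map_zero]

end inj

section core
variable {K : ℕ} {R : Type*} [CommRing R]
variable {V : Type*} [AddCommGroup V] [Module R V]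

/-- The labels. -/
def sf (K : ℕ) (i : Fin K) : ℤ := (i : ℕ)

lemma yy_hom (u : Fin K → ℤ → R) (w : List ℤ) :
    (w.map (yy u)).prod.IsHomogeneous w.length := by
  induction w with
  | nil => exact isHomogeneous_one _ _
  | cons n w ih =>
    rw [List.map_cons, List.prod_cons, List.length_cons, add_comm]
    apply IsHomogeneous.mul _ ih
    unfold yy
    apply IsHomogeneous.neg
    apply IsHomogeneous.sum
    intro s _
    rw [smul_eq_C_mul]
    have := (isHomogeneous_C (Fin K) (u s (n - 1))).mul (isHomogeneous_X R s)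
    rwa [zero_add] at this

lemma aeval_lst (u : Fin K → ℤ → R) (a : Fin K →₀ ℕ) (c : R) :
    aeval (fun j : Fin K => yy u (j : ℤ)) (monomial a c) =
      c • ((Noeth.lst (sf K) a).map (yy u)).prod := by
  rw [aeval_monomial, algebraMap_eq, ← smul_eq_C_mul]
  congr 1
  unfold Noeth.lst
  rw [List.map_map, Multiset.prod_map_toList, Finsupp.toMultiset_map, Finsupp.prod_toMultiset,
    Finsupp.prod_mapDomain_index (by intro; rw [pow_zero]) (by intros; rw [pow_add])]
  rfl

/-- The operators on the product. -/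
noncomputable def rp (u : Fin K → ℤ → R) (ρ : ℤ → Module.End R V) (n : ℤ) :
    Module.End R (MvPolynomial (Fin K) R × V) := (XL u n).prodMap (ρ n)

lemma rp_fst (u : Fin K → ℤ → R) (ρ : ℤ → Module.End R V) (η : V) (w : List ℤ) :
    Noeth.wd (rp u ρ) (1, η) w = (Noeth.wd (XL u) 1 w, Noeth.wd ρ η w) := by
  induction w with
  | nil => rfl
  | cons n w ih =>
    rw [Noeth.wd_cons, ih, Noeth.wd_cons, Noeth.wd_cons]
    rfl

lemma fst_mem (u : Fin K → ℤ → R) (ρ : ℤ → Module.End R V) (η : V) {k : ℕ}
    {x : MvPolynomial (Fin K) R × V} (hx : x ∈ Noeth.Fl (rp u ρ) (1, η) k) :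
    x.1 ∈ LT (Fin K) R k := by
  unfold Noeth.Fl at hx
  induction hx using Submodule.span_induction with
  | mem y hy =>
    obtain ⟨w, hw, rfl⟩ := hy
    rw [rp_fst]
    exact LT_mono hw (wd_symb u w).1
  | zero => exact Submodule.zero_mem _
  | add y z _ _ hy hz => exact Submodule.add_mem _ hy hz
  | smul a y _ hy => exact Submodule.smul_mem _ _ hy

lemma sig_symb (u : Fin K → ℤ → R) (ρ : ℤ → Module.End R V) (η : V) (k : ℕ)
    (f : MvPolynomial (Fin K) R) :
    (Noeth.sig (sf K) (rp u ρ) (1, η) (homogeneousComponent k f)).1 -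
      aeval (fun j : Fin K => yy u (j : ℤ)) (homogeneousComponent k f) ∈ LT (Fin K) R k ∧
    (aeval (fun j : Fin K => yy u (j : ℤ)) (homogeneousComponent k f)).IsHomogeneous k := by
  induction f using MvPolynomial.induction_on' with
  | monomial a c =>
    rw [Noeth.hc_monomial]
    split_ifs with h
    · rw [Noeth.sig_monomial, rp_fst, aeval_lst, Prod.smul_fst, ← smul_sub]
      have h1 : (Noeth.lst (sf K) a).length = k := by rw [Noeth.lst_length, h]
      refine ⟨Submodule.smul_mem _ _ ?_, ?_⟩
      · have := (wd_symb u (Noeth.lst (sf K) a)).2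
        rwa [h1] at this
      · have h2 := yy_hom u (Noeth.lst (sf K) a)
        rw [h1] at h2
        exact (mem_homogeneousSubmodule k _).mp
          (Submodule.smul_mem _ _ ((mem_homogeneousSubmodule k _).mpr h2))
    · rw [map_zero, map_zero]
      exact ⟨by simp, isHomogeneous_zero _ _ _⟩
  | add p q hp hq =>
    rw [map_add, map_add, map_add]
    refine ⟨?_, IsHomogeneous.add hp.2 hq.2⟩
    have := Submodule.add_mem _ hp.1 hq.1
    rwa [sub_add_sub_comm] at this

/-- The core lemma. -/
theorem core [IsDomain R] {u : Fin K → ℤ → R} (hu : IsChar u)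
    (hinj : Function.Injective fun s => u s 1) (ρ : ℤ → Module.End R V) (η : V)
    (hcomm : Noeth.Comm (rp u ρ))
    (hs : ∀ m, rp u ρ m (1, η) ∈ Submodule.span R (Set.range fun i => rp u ρ (sf K i) (1, η)))
    (k : ℕ) : ∀ x ∈ Noeth.Fl (rp u ρ) (1, η) k, x.1 = 0 → x = 0 := by
  induction k with
  | zero =>
    intro x hx _
    have : {x : MvPolynomial (Fin K) R × V |
        ∃ w : List ℤ, w.length < 0 ∧ x = Noeth.wd (rp u ρ) (1, η) w} = ∅ := by
      ext z; simp
    unfold Noeth.Fl at hx
    rw [this, Submodule.span_empty] at hx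
    simpa using hx
  | succ k ih =>
    intro x hx hx1
    obtain ⟨f, hf1, hf2⟩ := Noeth.repr hcomm hs k hx
    obtain ⟨h1, h2⟩ := sig_symb u ρ η k f
    rw [hf1] at h1 h2
    have h3 := fst_mem u ρ η hf2
    rw [Prod.fst_sub, hx1, zero_sub] at h3
    have h4 : aeval (fun j : Fin K => yy u (j : ℤ)) f ∈ LT (Fin K) R k := by
      have h5 := Submodule.neg_mem _ (Submodule.add_mem _ h1 h3)
      have h6 : -((Noeth.sig (sf K) (rp u ρ) (1, η) f).1 -
          aeval (fun j : Fin K => yy u (j : ℤ)) f + -(Noeth.sig (sf K) (rp u ρ) (1, η) f).1) =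
          aeval (fun j : Fin K => yy u (j : ℤ)) f := by abel
      rwa [h6] at h5
    have h5 : aeval (fun j : Fin K => yy u (j : ℤ)) f = 0 := by
      have h6 := hc_LT (le_refl k) h4
      rwa [homogeneousComponent_of_mem ((mem_homogeneousSubmodule k _).mpr h2), if_pos rfl] at h6
    have h6 := yy_inj hu hinj h5
    rw [h6, map_zero, sub_zero] at hf2
    exact ih x hf2 hx1

end core

end Pool.Agent.R693.Q
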