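import Pool.Agent.R693.Q.Zero
import Pool.Agent.R693.Q.Count

/-!
Every prime ideal contains a primitive ideal, which is nonzero if the prime ideal is nonzero.
-/

set_option autoImplicit false
set_option linter.unusedSectionVars false

namespace Pool.Agent.R693.Q

open W

section simple
variable {F : Type} [Field F] [CharZero F] {K : ℕ} {A : Type} [Ring A] [Algebra F A] {e : ℤ → A}

/-- The simple module. -/
def SM (F : Type) [Field F] (K : ℕ) {A : Type} [Ring A] [Algebra F A]
    (_ : A →ₐ[F] Module.End F (MvPolynomial (Fin K) F)) : Type := MvPolynomial (Fin K) F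

variable (Φ : A →ₐ[F] Module.End F (MvPolynomial (Fin K) F))

noncomputable instance : AddCommGroup (SM F K Φ) :=
  inferInstanceAs (AddCommGroup (MvPolynomial (Fin K) F))

noncomputable instance : Module A (SM F K Φ) :=
  Module.compHom (MvPolynomial (Fin K) F) Φ.toRingHom

lemma SM_smul (a : A) (q : SM F K Φ) : a • q = (Φ a (q : MvPolynomial (Fin K) F) : _) := rfl

lemma SM_simple {lam : Fin K → F} (hinj : Function.Injective lam) (h0 : ∀ s, lam s ≠ 0)
    (hΦ : ∀ n f, Φ (e n) f = XR (uu lam) n f) : IsSimpleModule A (SM F K Φ) := by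
  have hnt : Nontrivial (SM F K Φ) := inferInstanceAs (Nontrivial (MvPolynomial (Fin K) F))
  rw [isSimpleModule_iff]
  refine { eq_bot_or_eq_top := fun N => ?_ }
  let N' : Submodule F (MvPolynomial (Fin K) F) :=
    { carrier := (N : Set (SM F K Φ))
      add_mem' := fun ha hb => N.add_mem ha hb
      zero_mem' := N.zero_mem
      smul_mem' := by
        intro c q hq
        have h2 : Φ (algebraMap F A c) q = c • q := by
          rw [AlgHom.commutes, Module.algebraMap_end_apply]
        have h1 : Φ (algebraMap F A c) q ∈ (N : Set (SM F K Φ)) :=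
          N.smul_mem (algebraMap F A c) hq
        rw [h2] at h1
        exact h1 }
  have hN' : ∀ n, ∀ q ∈ N', XR (uu lam) n q ∈ N' := by
    intro n q hq
    rw [← hΦ]
    exact N.smul_mem (e n) hq
  by_cases h : N' = ⊥
  · left
    rw [eq_bot_iff]
    intro q hq
    have h1 : (q : MvPolynomial (Fin K) F) ∈ N' := hq
    rw [h] at h1
    exact h1
  · right
    have h2 := simple_aux hinj h0 hN' h
    rw [eq_top_iff]
    intro q _
    have h1 : (q : MvPolynomial (Fin K) F) ∈ N' := by rw [h2]; trivial
    exact h1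

end simple

section main
variable {F : Type} [Field F] [CharZero F] {A : Type} [Ring A] [Algebra F A] {e : ℤ → A}

lemma IsW_XL (K : ℕ) : IsW F (fun n : ℤ =>
    ((XL (ug F K) n).restrictScalars F : Module.End F (MvPolynomial (Fin K) (RR F K)))) := by
  intro m n j hmn
  have h2 : (Lab.one : ℤ) = 1 := rfl
  rw [h2] at hmn
  have hj : m + n - 1 = j := by omega
  apply LinearMap.ext
  intro f
  have h1 := congrArg (fun g => g f) (XL_comm (ug_char F K) m n)
  beta_reduce at h1
  rw [LinearMap.sub_apply, Module.End.mul_apply, Module.End.mul_apply, LinearMap.smul_apply,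
    Int.cast_smul_eq_zsmul, hj] at h1
  rw [LinearMap.sub_apply, Module.End.mul_apply, Module.End.mul_apply, LinearMap.smul_apply]
  change _ = (((n - m : ℤ) : ℤ) : F) • _
  rw [Int.cast_smul_eq_zsmul]
  exact h1

lemma IsW_XR {K : ℕ} {lam : Fin K → F} (h0 : ∀ s, lam s ≠ 0) :
    IsW F (fun n : ℤ => (XR (uu lam) n : Module.End F (MvPolynomial (Fin K) F))) := by
  intro m n j hmn
  have h2 : (Lab.one : ℤ) = 1 := rfl
  rw [h2] at hmn
  have hj : m + n - 1 = j := by omega
  have h1 := XR_comm (uu_char h0) m n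
  rw [hj] at h1
  exact h1

/-- The abstract theorem. -/
theorem main (he : IsW F e) (hgen : ∀ x : A, ∃ k, x ∈ W.Fl F e k)
    (huniv : ∀ (B : Type) [Ring B] [Algebra F B] (y : ℤ → B), IsW F y →
      ∃ ψ : A →ₐ[F] B, ∀ n, ψ (e n) = y n)
    (β : Module.Basis {l : List ℤ // l.Pairwise (· ≤ ·)} F A) (hβ : ∀ l, β l = W.wd e l.1)
    {P : TwoSidedIdeal A} (hP : IsPrimeT P) :
    ∃ (M : Type) (_ : AddCommGroup M) (_ : Module A M), IsSimpleModule A M ∧
      (∀ a : A, (∀ x : M, a • x = 0) → a ∈ P) ∧
      (P ≠ ⊥ → ∃ a : A, a ≠ 0 ∧ ∀ x : M, a • x = 0) := by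
  by_cases h0 : P = ⊥
  · obtain ⟨M, hM, hM'⟩ := exists_faithful (F := F) he hgen β hβ
    refine ⟨A ⧸ M, inferInstance, inferInstance, ?_, ?_, fun h => absurd h0 h⟩
    · rw [isSimpleModule_iff_isCoatom]
      exact hM.out
    · intro a ha
      rw [hM' a ha]
      exact P.zero_mem
  · obtain ⟨k, N, hV, hη⟩ := exists_min (F := F) he hgen h0 hP.1
    set lam : Fin (k * (2 * N)) → F := fun s => ((s : ℕ) : F) + 1 with hlam
    have hinj : Function.Injective lam := by
      intro s r h
      have h1 : ((s : ℕ) : F) = ((r : ℕ) : F) := by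
        rw [hlam] at h
        exact add_right_cancel h
      exact Fin.ext (by exact_mod_cast h1)
    have hne : ∀ s, lam s ≠ 0 := by
      intro s
      rw [hlam]
      beta_reduce
      exact_mod_cast Nat.succ_ne_zero (s : ℕ)
    obtain ⟨Φc, hΦc⟩ := huniv _ _ (IsW_XL (F := F) (k * (2 * N)))
    obtain ⟨Φ, hΦ⟩ := huniv _ _ (IsW_XR hne)
    have hΦc' : ∀ n f, Φc (e n) f = XL (ug F (k * (2 * N))) n f := by
      intro n f
      rw [hΦc]
      rfl
    have hΦ' : ∀ n f, Φ (e n) f = XR (uu lam) n f := by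
      intro n f
      rw [hΦ]
    have hLI : LinearIndependent F
        (fun l : {l : List ℤ // l.Pairwise (· ≤ ·)} => W.wd e l.1) := by
      have h4 : (fun l : {l : List ℤ // l.Pairwise (· ≤ ·)} => W.wd e l.1) = β := by
        funext l
        rw [hβ]
      rw [h4]
      exact β.linearIndependent
    refine ⟨SM F (k * (2 * N)) Φ, inferInstance, inferInstance, SM_simple Φ hinj hne hΦ', ?_, ?_⟩
    · intro a ha
      have h1 : Φ a = 0 := by
        apply LinearMap.ext
        intro q
        exact ha q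
      exact mem_of_generic he hgen hP hV (hη N) Φc hΦc'
        (generic_of_ann hgen hne Φc hΦc' Φ hΦ' h1)
    · intro _
      obtain ⟨u, hu, hu'⟩ := exists_ann hne hLI Φ hΦ'
      refine ⟨u, hu, fun x => ?_⟩
      rw [SM_smul, hu']
      rfl

end main

end Pool.Agent.R693.Q
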