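import Pool.Agent.R693.W.Noeth

/-!
Difference operators on polynomials satisfying the Witt relations.
-/

set_option autoImplicit false
set_option linter.unusedSectionVars false

namespace Pool.Agent.R693.Q

open MvPolynomial

variable {σ : Type} [DecidableEq σ] {R : Type*} [CommRing R]

/-- The shift by an integer vector. -/
noncomputable def sh (κ : σ → ℤ) : MvPolynomial σ R →ₐ[R] MvPolynomial σ R :=
  aeval (fun i => X i + C ((κ i : ℤ) : R))

lemma sh_X (κ : σ → ℤ) (i : σ) : sh κ (X i : MvPolynomial σ R) = X i + C ((κ i : ℤ) : R) := by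
  unfold sh
  rw [aeval_X]

lemma sh_C (κ : σ → ℤ) (a : R) : sh κ (C a : MvPolynomial σ R) = C a := by
  unfold sh
  rw [aeval_C]
  rfl

lemma sh_add (κ κ' : σ → ℤ) (f : MvPolynomial σ R) : sh κ (sh κ' f) = sh (κ + κ') f := by
  have h : (sh κ).comp (sh κ') = (sh (κ + κ') : MvPolynomial σ R →ₐ[R] MvPolynomial σ R) := by
    apply algHom_ext
    intro i
    rw [AlgHom.comp_apply, sh_X, map_add, sh_X, sh_C, sh_X, Pi.add_apply, Int.cast_add, C_add]
    ring
  exact congrArg (fun g => g f) h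

lemma sh_zero (f : MvPolynomial σ R) : sh 0 f = f := by
  have h : (sh 0 : MvPolynomial σ R →ₐ[R] MvPolynomial σ R) = AlgHom.id R _ := by
    apply algHom_ext
    intro i
    rw [sh_X]
    simp
  rw [h]
  rfl

/-- Characters. -/
structure IsChar (u : σ → ℤ → R) : Prop where
  add : ∀ s m n, u s (m + n) = u s m * u s n
  zero : ∀ s, u s 0 = 1

/-- The elementary operators. -/
noncomputable def T (u : σ → ℤ → R) (s : σ) (m : ℤ) : Module.End R (MvPolynomial σ R) :=
  u s m • (LinearMap.mulLeft R (X s) ∘ₗ (sh (Pi.single s m)).toLinearMap)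

lemma T_apply (u : σ → ℤ → R) (s : σ) (m : ℤ) (f : MvPolynomial σ R) :
    T u s m f = u s m • (X s * sh (Pi.single s m) f) := rfl

lemma T_comm {u : σ → ℤ → R} (hu : IsChar u) (s r : σ) (m n : ℤ) (f : MvPolynomial σ R) :
    T u s m (T u r n f) - T u r n (T u s m f) =
      if s = r then ((m - n : ℤ) : R) • T u s (m + n) f else 0 := by
  simp only [T_apply, map_smul, map_mul, sh_X, sh_add]
  split_ifs with h
  · subst h
    rw [Pi.single_eq_same, Pi.single_eq_same, ← Pi.single_add, ← Pi.single_add, add_comm n m,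
      smul_smul, smul_smul, mul_comm (u s n), hu.add, smul_smul, ← smul_sub]
    have h1 : X s * ((X s + C ((m : ℤ) : R)) * sh (Pi.single s (m + n)) f) -
        X s * ((X s + C ((n : ℤ) : R)) * sh (Pi.single s (m + n)) f) =
        ((m - n : ℤ) : R) • (X s * sh (Pi.single s (m + n)) f) := by
      rw [MvPolynomial.smul_eq_C_mul, Int.cast_sub, C_sub]
      ring
    rw [h1, smul_smul, mul_comm (u s m * u s n)]
  · rw [Pi.single_eq_of_ne (Ne.symm h), Pi.single_eq_of_ne h, Int.cast_zero, C_0, add_zero,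
      add_zero, smul_smul, smul_smul, add_comm (Pi.single r n : σ → ℤ) (Pi.single s m),
      mul_comm (u r n), ← smul_sub, mul_left_comm, sub_self, smul_zero]

variable [Fintype σ]

/-- The Witt operators. -/
noncomputable def XL (u : σ → ℤ → R) (n : ℤ) : Module.End R (MvPolynomial σ R) :=
  -∑ s, T u s (n - 1)

lemma XL_apply (u : σ → ℤ → R) (n : ℤ) (f : MvPolynomial σ R) :
    XL u n f = -∑ s, T u s (n - 1) f := by
  unfold XL
  rw [LinearMap.neg_apply, LinearMap.sum_apply]

/-- The Witt relations. -/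
lemma XL_comm {u : σ → ℤ → R} (hu : IsChar u) (m n : ℤ) :
    XL u m * XL u n - XL u n * XL u m = ((n - m : ℤ) : R) • XL u (m + n - 1) := by
  apply LinearMap.ext
  intro f
  rw [LinearMap.sub_apply, Module.End.mul_apply, Module.End.mul_apply, LinearMap.smul_apply]
  simp only [XL_apply, map_neg, map_sum, neg_neg, Finset.sum_neg_distrib]
  have hc : ∑ x, ∑ s, T u s (n - 1) (T u x (m - 1) f) =
      ∑ x, ∑ s, T u x (n - 1) (T u s (m - 1) f) := Finset.sum_comm
  rw [hc, ← Finset.sum_sub_distrib, smul_neg, Finset.smul_sum, ← Finset.sum_neg_distrib]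
  refine Finset.sum_congr rfl fun s _ => ?_
  rw [← Finset.sum_sub_distrib, Finset.sum_eq_single s]
  · rw [T_comm hu, if_pos rfl]
    have h2 : m - 1 + (n - 1) = m + n - 1 - 1 := by ring
    have h3 : m - 1 - (n - 1) = -(n - m) := by ring
    rw [h2, h3, Int.cast_neg, neg_smul]
  · intro r _ hr
    rw [T_comm hu, if_neg hr]
  · intro h
    exact absurd (Finset.mem_univ s) h

/-! ### The filtration by degree -/

variable (σ R) in
/-- Multiplication by the variables. -/
noncomputable def mX (i : σ) : Module.End R (MvPolynomial σ R) := LinearMap.mulLeft R (X i)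

lemma mX_apply (i : σ) (f : MvPolynomial σ R) : mX σ R i f = X i * f := by
  unfold mX
  rw [LinearMap.mulLeft_apply]

variable (σ R) in
/-- Polynomials of degree less than `d`. -/
noncomputable def LT (d : ℕ) : Submodule R (MvPolynomial σ R) := Noeth.Fl (mX σ R) 1 d

lemma LT_mono {k m : ℕ} (h : k ≤ m) : LT σ R k ≤ LT σ R m := Noeth.Fl_mono h

lemma X_mul_mem (i : σ) {d : ℕ} {f : MvPolynomial σ R} (hf : f ∈ LT σ R d) :
    X i * f ∈ LT σ R (d + 1) := by
  rw [← mX_apply]
  exact Noeth.rho_mem (ρ := mX σ R) i hf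

lemma LT_zero {f : MvPolynomial σ R} (hf : f ∈ LT σ R 0) : f = 0 := by
  unfold LT Noeth.Fl at hf
  have : {x : MvPolynomial σ R | ∃ w : List σ, w.length < 0 ∧ x = Noeth.wd (mX σ R) 1 w} = ∅ := by
    ext z; simp
  rw [this, Submodule.span_empty] at hf
  simpa using hf

lemma one_mem_LT : (1 : MvPolynomial σ R) ∈ LT σ R 1 :=
  Submodule.subset_span ⟨[], by simp, by simp⟩

lemma exists_LT (f : MvPolynomial σ R) : ∃ d, f ∈ LT σ R d := by
  induction f using MvPolynomial.induction_on with
  | C a =>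
    refine ⟨1, ?_⟩
    have : (C a : MvPolynomial σ R) = a • 1 := by rw [smul_eq_C_mul, mul_one]
    rw [this]
    exact Submodule.smul_mem _ _ one_mem_LT
  | add p q hp hq =>
    obtain ⟨d, hd⟩ := hp
    obtain ⟨d', hd'⟩ := hq
    exact ⟨max d d', Submodule.add_mem _ (LT_mono (le_max_left _ _) hd)
      (LT_mono (le_max_right _ _) hd')⟩
  | mul_X p i hp =>
    obtain ⟨d, hd⟩ := hp
    exact ⟨d + 1, by rw [mul_comm]; exact X_mul_mem i hd⟩

lemma sh_wd (κ : σ → ℤ) (w : List σ) :
    sh κ (Noeth.wd (mX σ R) 1 w) - Noeth.wd (mX σ R) 1 w ∈ LT σ R w.length := by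
  induction w with
  | nil =>
    rw [Noeth.wd_nil, map_one, sub_self]
    exact Submodule.zero_mem _
  | cons i w ih =>
    have h1 : sh κ (Noeth.wd (mX σ R) 1 w) ∈ LT σ R (w.length + 1) := by
      have h2 : Noeth.wd (mX σ R) 1 w ∈ LT σ R (w.length + 1) :=
        Noeth.wd_mem (Nat.lt_succ_self _)
      have := Submodule.add_mem _ (LT_mono (Nat.le_succ _) ih) h2
      rwa [sub_add_cancel] at this
    rw [Noeth.wd_cons, mX_apply]
    have h3 : sh κ (X i * Noeth.wd (mX σ R) 1 w) - X i * Noeth.wd (mX σ R) 1 w =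
        X i * (sh κ (Noeth.wd (mX σ R) 1 w) - Noeth.wd (mX σ R) 1 w) +
          ((κ i : ℤ) : R) • sh κ (Noeth.wd (mX σ R) 1 w) := by
      rw [map_mul, sh_X, smul_eq_C_mul]
      ring
    rw [h3]
    exact Submodule.add_mem _ (X_mul_mem i ih) (Submodule.smul_mem _ _ h1)

lemma sh_sub_mem (κ : σ → ℤ) {d : ℕ} {f : MvPolynomial σ R} (hf : f ∈ LT σ R (d + 1)) :
    sh κ f - f ∈ LT σ R d := by
  unfold LT Noeth.Fl at hf
  induction hf using Submodule.span_induction with
  | mem y hy =>
    obtain ⟨w, hw, rfl⟩ := hy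
    exact LT_mono (Nat.lt_succ_iff.mp hw) (sh_wd κ w)
  | zero => rw [map_zero, sub_zero]; exact Submodule.zero_mem _
  | add y z _ _ hy hz => rw [map_add, add_sub_add_comm]; exact Submodule.add_mem _ hy hz
  | smul a y _ hy => rw [map_smul, ← smul_sub]; exact Submodule.smul_mem _ _ hy

lemma sh_mem (κ : σ → ℤ) {d : ℕ} {f : MvPolynomial σ R} (hf : f ∈ LT σ R d) :
    sh κ f ∈ LT σ R d := by
  cases d with
  | zero => rw [LT_zero hf, map_zero]; exact Submodule.zero_mem _
  | succ d =>
    have := Submodule.add_mem _ (LT_mono (Nat.le_succ _) (sh_sub_mem κ hf)) hf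
    rwa [sub_add_cancel] at this

lemma hc_LT {d m : ℕ} (h : d ≤ m) {f : MvPolynomial σ R} (hf : f ∈ LT σ R d) :
    homogeneousComponent m f = 0 := by
  have hhom : ∀ w : List σ, (Noeth.wd (mX σ R) 1 w) ∈ homogeneousSubmodule σ R w.length := by
    intro w
    induction w with
    | nil =>
      rw [Noeth.wd_nil, mem_homogeneousSubmodule]
      exact isHomogeneous_one σ R
    | cons i w ih =>
      rw [Noeth.wd_cons, mem_homogeneousSubmodule, mX_apply]
      have := (isHomogeneous_X R i).mul ((mem_homogeneousSubmodule _ _).mp ih)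
      rwa [add_comm] at this
  unfold LT Noeth.Fl at hf
  induction hf using Submodule.span_induction with
  | mem y hy =>
    obtain ⟨w, hw, rfl⟩ := hy
    rw [homogeneousComponent_of_mem (hhom w), if_neg (by omega)]
  | zero => rw [map_zero]
  | add y z _ _ hy hz => rw [map_add, hy, hz, add_zero]
  | smul a y _ hy => rw [map_smul, hy, smul_zero]

/-- The symbols. -/
noncomputable def yy (u : σ → ℤ → R) (n : ℤ) : MvPolynomial σ R := -∑ s, u s (n - 1) • X s

lemma XL_symb (u : σ → ℤ → R) (n : ℤ) {d : ℕ} {f : MvPolynomial σ R} (hf : f ∈ LT σ R (d + 1)) :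
    XL u n f - yy u n * f ∈ LT σ R (d + 1) := by
  have h1 : XL u n f - yy u n * f =
      -∑ s, u s (n - 1) • (X s * (sh (Pi.single s (n - 1)) f - f)) := by
    rw [XL_apply]
    unfold yy
    rw [neg_mul, sub_neg_eq_add, Finset.sum_mul, neg_add_eq_sub, ← neg_sub, ← Finset.sum_sub_distrib]
    congr 1
    refine Finset.sum_congr rfl fun s _ => ?_
    rw [T_apply, smul_mul_assoc, ← smul_sub, mul_sub]
  rw [h1]
  exact Submodule.neg_mem _ (Submodule.sum_mem _ fun s _ =>
    Submodule.smul_mem _ _ (X_mul_mem s (sh_sub_mem _ hf)))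

lemma yy_mul_mem (u : σ → ℤ → R) (n : ℤ) {d : ℕ} {f : MvPolynomial σ R} (hf : f ∈ LT σ R d) :
    yy u n * f ∈ LT σ R (d + 1) := by
  unfold yy
  rw [neg_mul, Finset.sum_mul]
  refine Submodule.neg_mem _ (Submodule.sum_mem _ fun s _ => ?_)
  rw [smul_mul_assoc]
  exact Submodule.smul_mem _ _ (X_mul_mem s hf)

lemma wd_symb (u : σ → ℤ → R) (w : List ℤ) :
    Noeth.wd (XL u) 1 w ∈ LT σ R (w.length + 1) ∧
      Noeth.wd (XL u) 1 w - (w.map (yy u)).prod ∈ LT σ R w.length := by
  induction w with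
  | nil =>
    refine ⟨?_, ?_⟩
    · rw [Noeth.wd_nil]
      exact one_mem_LT
    · rw [Noeth.wd_nil, List.map_nil, List.prod_nil, sub_self]
      exact Submodule.zero_mem _
  | cons n w ih =>
    obtain ⟨ih1, ih2⟩ := ih
    have h1 := XL_symb u n ih1
    refine ⟨?_, ?_⟩
    · rw [Noeth.wd_cons]
      have := Submodule.add_mem _ (LT_mono (Nat.le_succ _) h1) (yy_mul_mem u n ih1)
      rwa [sub_add_cancel] at this
    · rw [Noeth.wd_cons, List.map_cons, List.prod_cons]
      have := Submodule.add_mem _ h1 (yy_mul_mem u n ih2)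
      rwa [mul_sub, sub_add_sub_cancel] at this

end Pool.Agent.R693.Q
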