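import Pool.Agent.R693.Q.Gen
import Pool.Agent.R693.R.Inj

/-!
Comparison of the generic module with the module of functions with values in a prime quotient.
-/

set_option autoImplicit false
set_option linter.unusedSectionVars false

namespace Pool.Agent.R693.Q

open W

section RRs
variable (F : Type) [Field F] (K : ℕ)

/-- Laurent polynomials. -/
abbrev RR := AddMonoidAlgebra F (Fin K → ℤ)

/-- The generic characters. -/
noncomputable def ug (s : Fin K) (m : ℤ) : RR F K := AddMonoidAlgebra.single (Pi.single s m) 1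

lemma ug_char : IsChar (ug F K) where
  add s m n := by
    unfold ug
    rw [AddMonoidAlgebra.single_mul_single, one_mul, Pi.single_add]
  zero s := by
    unfold ug
    rw [Pi.single_zero, AddMonoidAlgebra.one_def]

lemma ug_inj : Function.Injective fun s => ug F K s 1 := by
  intro s r h
  by_contra hne
  have h1 := congrArg (fun f : RR F K => f.coeff (Pi.single s 1)) h
  simp only [ug] at h1
  rw [AddMonoidAlgebra.coeff_single, AddMonoidAlgebra.coeff_single, Finsupp.single_eq_same,
    Finsupp.single_eq_of_ne] at h1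
  · exact one_ne_zero h1
  · intro h2
    have h3 := congrFun h2 s
    rw [Pi.single_eq_same, Pi.single_eq_of_ne hne] at h3
    exact one_ne_zero h3

end RRs

section th
variable {F : Type} [Field F] [CharZero F] {K k : ℕ}

/-- The generators as units. -/
noncomputable def Un (F : Type) [Field F] [CharZero F] {k : ℕ} (i : Fin k) : (Rd F ℤ k)ˣ where
  val := ⟨X (i : ℕ), X_mem_Rd i.2⟩
  inv := ⟨Xi F ℤ i, Xi_mem_Rd i.2⟩
  val_inv := by
    apply Subtype.ext
    change X (i : ℕ) * Xi F ℤ i = 1
    rw [mul_comm, Xi_mul_X]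
  inv_val := by
    apply Subtype.ext
    change Xi F ℤ i * X (i : ℕ) = 1
    rw [Xi_mul_X]

/-- The specialisation on monomials. -/
noncomputable def chi (F : Type) [Field F] [CharZero F] {K k : ℕ} (idx : Fin K → Fin k) :
    Multiplicative (Fin K → ℤ) →* Rd F ℤ k where
  toFun κ := ((∏ s, Un F (idx s) ^ (κ.toAdd s) : (Rd F ℤ k)ˣ) : Rd F ℤ k)
  map_one' := by
    simp
  map_mul' κ κ' := by
    rw [← Units.val_mul, ← Finset.prod_mul_distrib]
    congr 1
    refine Finset.prod_congr rfl fun s _ => ?_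
    rw [← zpow_add]
    rfl

/-- The specialisation. -/
noncomputable def th (F : Type) [Field F] [CharZero F] {K k : ℕ} (idx : Fin K → Fin k) :
    RR F K →ₐ[F] Rd F ℤ k := AddMonoidAlgebra.lift F (Rd F ℤ k) (Fin K → ℤ) (chi F idx)

lemma th_ug (idx : Fin K → Fin k) (s : Fin K) :
    th F idx (ug F K s 1) = ⟨X (idx s : ℕ), X_mem_Rd (idx s).2⟩ := by
  unfold th ug
  rw [AddMonoidAlgebra.lift_single, one_smul]
  change ((∏ r, Un F (idx r) ^ ((Pi.single s 1 : Fin K → ℤ) r) : (Rd F ℤ k)ˣ) : Rd F ℤ k) = _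
  rw [Finset.prod_eq_single s]
  · rw [Pi.single_eq_same, zpow_one]
    rfl
  · intro r _ hr
    rw [Pi.single_eq_of_ne hr, zpow_zero]
  · intro h
    exact absurd (Finset.mem_univ s) h

/-- Functions with values in a quotient, as a module over Laurent polynomials. -/
def V2 {A : Type} [Ring A] (J : Ideal A) {K k : ℕ} (_ : Fin K → Fin k) : Type :=
  VV (ι := ℤ) J

variable {A : Type} [Ring A] [Algebra F A] {e : ℤ → A} (J : Ideal A) (idx : Fin K → Fin k)

instance : AddCommGroup (V2 J idx) := inferInstanceAs (AddCommGroup (VV (ι := ℤ) J))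

noncomputable instance : Module (RR F K) (V2 J idx) :=
  Module.compHom (VV (ι := ℤ) J) (th F idx).toRingHom

/-- The underlying function. -/
def app {J : Ideal A} {idx : Fin K → Fin k} (f : V2 J idx) : VV (ι := ℤ) J := f

lemma smul_V2 (r : RR F K) (f : V2 J idx) : app (r • f) = th F idx r • app f := rfl

variable (F) (e) in
/-- Left multiplication. -/
noncomputable def rho2 (m : ℤ) : Module.End (RR F K) (V2 J idx) where
  toFun f := rho F e J k m f
  map_add' f g := (rho F e J k m).map_add f g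
  map_smul' r f := (rho F e J k m).map_smul (th F idx r) f

lemma rho2_apply (m : ℤ) (f : V2 J idx) (n : G ℤ) :
    app (rho2 F e J idx m f) n = e m • app f n := rfl

lemma rho2_comm (he : IsW F e) (m n : ℤ) :
    rho2 F e J idx m * rho2 F e J idx n - rho2 F e J idx n * rho2 F e J idx m =
      (n - m : ℤ) • rho2 F e J idx (m + n - 1) := by
  apply LinearMap.ext
  intro f
  funext l
  have h1 : (rho2 F e J idx m * rho2 F e J idx n - rho2 F e J idx n * rho2 F e J idx m) f l =
      (e m * e n - e n * e m) • app f l := by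
    rw [LinearMap.sub_apply, Module.End.mul_apply, Module.End.mul_apply, sub_smul, mul_smul,
      mul_smul]
    rfl
  have h2 := he m n (m + n - 1) (by
    have : (Lab.one : ℤ) = 1 := rfl
    rw [this]; ring)
  have h3 : ((n - m : ℤ) • rho2 F e J idx (m + n - 1)) f l =
      (n - m : ℤ) • (e (m + n - 1) • app f l) := by
    rw [LinearMap.smul_apply]
    rfl
  rw [h1, h2, h3]
  change (((n - m : ℤ) : F) • e (m + n - 1)) • _ = _
  rw [Int.cast_smul_eq_zsmul, smul_assoc]

lemma rp_comm (he : IsW F e) : Noeth.Comm (rp (ug F K) (rho2 F e J idx)) := by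
  intro m n
  have h1 : rp (ug F K) (rho2 F e J idx) m * rp (ug F K) (rho2 F e J idx) n -
      rp (ug F K) (rho2 F e J idx) n * rp (ug F K) (rho2 F e J idx) m =
      (n - m : ℤ) • rp (ug F K) (rho2 F e J idx) (m + n - 1) := by
    apply LinearMap.ext
    rintro ⟨f, g⟩
    have h2 := congrArg (fun T => T f) (XL_comm (ug_char F K) m n)
    have h3 := congrArg (fun T => T g) (rho2_comm J idx he m n)
    beta_reduce at h2 h3
    rw [LinearMap.smul_apply, Int.cast_smul_eq_zsmul, LinearMap.sub_apply, Module.End.mul_apply,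
      Module.End.mul_apply] at h2
    rw [LinearMap.smul_apply, LinearMap.sub_apply, Module.End.mul_apply,
      Module.End.mul_apply] at h3
    rw [LinearMap.sub_apply, LinearMap.smul_apply, Module.End.mul_apply, Module.End.mul_apply]
    exact Prod.ext h2 h3
  rw [h1]
  exact zsmul_mem (Submodule.subset_span (Set.mem_range_self _)) _

end th

section rec
variable {F : Type} [Field F] [CharZero F] {A : Type} [Ring A] [Algebra F A] {e : ℤ → A}

/-- The generators in the coefficient ring. -/
noncomputable def xR (F : Type) [Field F] [CharZero F] {d : ℕ} (i : Fin d) : Rd F ℤ d :=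
  ⟨X (i : ℕ), X_mem_Rd i.2⟩

/-- The recurrence polynomial. -/
noncomputable def P0 (F : Type) [Field F] [CharZero F] (N d : ℕ) : Polynomial (Rd F ℤ d) :=
  ∏ i : Fin d, (Polynomial.X - Polynomial.C (xR F i)) ^ (2 * N)

lemma P0_deg (N d : ℕ) : (P0 F N d).natDegree = d * (2 * N) := by
  unfold P0
  rw [Polynomial.natDegree_prod_of_monic]
  · have h1 : ∀ i : Fin d, ((Polynomial.X - Polynomial.C (xR F i)) ^ (2 * N)).natDegree =
        2 * N := by
      intro i
      rw [(Polynomial.monic_X_sub_C _).natDegree_pow, Polynomial.natDegree_X_sub_C, mul_one]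
    rw [Finset.sum_congr rfl fun i _ => h1 i, Finset.sum_const, Finset.card_univ,
      Fintype.card_fin, smul_eq_mul]
  · intro i _
    exact (Polynomial.monic_X_sub_C _).pow _

lemma eta_rec (J : Ideal A) (N d : ℕ)
    (hV : Dl F ℤ (d + 1) ^ N ∈ aI e (d + 1) (J.restrictScalars F)) (m : ℤ) :
    ∑ j ∈ Finset.range (d * (2 * N) + 1),
      (P0 F N d).coeff j • rho F e J d (m + j • Lab.one) (eta F e J d N) = 0 := by
  have hdeg := P0_deg (F := F) N d
  have hP0 : P0 F N d = ∏ i : Fin d, (Polynomial.X - Polynomial.C (xR F i)) ^ (2 * N) := rfl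
  set P0 := P0 F N d
  funext n
  have hval : ∑ j ∈ Finset.range (d * (2 * N) + 1), e (m + j • Lab.one) *
      act A ((P0.coeff j : Rd F ℤ d) : W.K F ℤ) (eta0 F e d N) n ∈ J := by
    set n' : G ℤ := Function.update n d m with hn'
    have h1 : (∑ j ∈ Finset.range (d * (2 * N) + 1), ((P0.coeff j : Rd F ℤ d) : W.K F ℤ) *
        X d ^ j) * Dl F ℤ d ^ N ∈ aI e (d + 1) (J.restrictScalars F) := by
      have h2 : (∑ j ∈ Finset.range (d * (2 * N) + 1), ((P0.coeff j : Rd F ℤ d) : W.K F ℤ) *
          X d ^ j) = (∏ i : Fin d, (X d - X (i : ℕ))) ^ (2 * N) := by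
        have h3 : Polynomial.eval₂ (algebraMap (Rd F ℤ d) (W.K F ℤ)) (X d : W.K F ℤ) P0 =
            (∏ i : Fin d, (X d - X (i : ℕ))) ^ (2 * N) := by
          rw [hP0, Polynomial.eval₂_finsetProd, ← Finset.prod_pow]
          refine Finset.prod_congr rfl fun i _ => ?_
          rw [Polynomial.eval₂_pow, Polynomial.eval₂_sub, Polynomial.eval₂_X,
            Polynomial.eval₂_C]
          rfl
        rw [← h3, Polynomial.eval₂_eq_sum_range, hdeg]
        refine Finset.sum_congr rfl fun j _ => ?_
        rfl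
      rw [h2, pow_mul, ← mul_pow]
      obtain ⟨q, hq⟩ := Dl_succ_dvd (F := F) (ι := ℤ) d
      rw [hq, mul_pow, mul_comm]
      exact Ideal.mul_mem_left _ _ hV
    have h4 := h1 n'
    rw [Finset.sum_mul, map_sum, LinearMap.sum_apply, Finset.sum_apply] at h4
    have h5 : ∀ j ∈ Finset.range (d * (2 * N) + 1),
        act A (((P0.coeff j : Rd F ℤ d) : W.K F ℤ) * X d ^ j * Dl F ℤ d ^ N) (om e (d + 1)) n' =
        e (m + j • Lab.one) * act A ((P0.coeff j : Rd F ℤ d) : W.K F ℤ) (eta0 F e d N) n := by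
      intro j _
      have h6 : act A (Dl F ℤ d ^ N) (om e (d + 1)) = fun n : G ℤ => e (n d) * eta0 F e d N n := by
        funext l
        exact act_Rd (Subalgebra.pow_mem _ (Dl_mem_Rd d) N) e (om e d) l
      have h7 : act A (X d ^ j : W.K F ℤ) (fun n : G ℤ => e (n d) * eta0 F e d N n) =
          fun n : G ℤ => e (n d + j • Lab.one) * eta0 F e d N n := by
        funext l
        have h8 : (X d : W.K F ℤ) ^ j = AddMonoidAlgebra.single (j • dl d) 1 := by
          unfold X
          rw [AddMonoidAlgebra.single_pow, one_pow]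
        rw [h8, act_single, one_smul]
        congr 1
        · rw [Pi.add_apply, Pi.smul_apply, dl_self]
        · apply Ind_eta0
          intro b hb
          rw [Pi.add_apply, Pi.smul_apply, dl_ne hb.symm, smul_zero, add_zero]
      rw [act_mul, act_mul, h6, h7,
        act_Rd (P0.coeff j).2 (fun x => e (x + j • Lab.one)) (eta0 F e d N) n']
      congr 1
      · rw [hn', Function.update_self]
      · apply Ind_act (Ind_eta0 d N)
        intro b hb
        rw [hn', Function.update_of_ne hb]
    rw [Finset.sum_congr rfl h5] at h4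
    exact h4
  have h9 : (∑ j ∈ Finset.range (d * (2 * N) + 1), P0.coeff j •
      rho F e J d (m + j • Lab.one) (eta F e J d N)) n =
      Submodule.Quotient.mk (∑ j ∈ Finset.range (d * (2 * N) + 1), e (m + j • Lab.one) *
      act A ((P0.coeff j : Rd F ℤ d) : W.K F ℤ) (eta0 F e d N) n) := by
    rw [Finset.sum_apply]
    have h10 : ∀ j, (P0.coeff j • rho F e J d (m + j • Lab.one) (eta F e J d N)) n =
        (Submodule.mkQ J) (e (m + j • Lab.one) *
          act A ((P0.coeff j : Rd F ℤ d) : W.K F ℤ) (eta0 F e d N) n) := by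
      intro j
      rw [← map_smul, rho_apply, smul_eta]
      rfl
    rw [Finset.sum_congr rfl fun j _ => h10 j, ← map_sum]
    rfl
  rw [h9]
  exact (Submodule.Quotient.mk_eq_zero J).mpr hval

/-- The index map. -/
def idx0 (k N : ℕ) (s : Fin (k * (2 * N))) : Fin k := (finProdFinEquiv.symm s).1

/-- The generic recurrence polynomial. -/
noncomputable def PG (F : Type) [Field F] (K : ℕ) : Polynomial (RR F K) :=
  ∏ s, (Polynomial.X - Polynomial.C (ug F K s 1))

lemma PG_monic (K : ℕ) : (PG F K).Monic :=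
  Polynomial.monic_prod_of_monic _ _ fun _ _ => Polynomial.monic_X_sub_C _

lemma PG_deg (K : ℕ) : (PG F K).natDegree = K := by
  unfold PG
  rw [Polynomial.natDegree_prod_of_monic _ _ fun _ _ => Polynomial.monic_X_sub_C _]
  simp

lemma PG_map (k N : ℕ) : (PG F (k * (2 * N))).map (th F (idx0 k N)).toRingHom = P0 F N k := by
  unfold PG P0
  rw [Polynomial.map_prod]
  have h1 : ∀ s : Fin (k * (2 * N)),
      (Polynomial.X - Polynomial.C (ug F (k * (2 * N)) s 1)).map (th F (idx0 k N)).toRingHom =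
      (fun p : Fin k × Fin (2 * N) => Polynomial.X - Polynomial.C (xR F p.1))
        (finProdFinEquiv.symm s) := by
    intro s
    rw [Polynomial.map_sub, Polynomial.map_X, Polynomial.map_C]
    congr 2
    exact th_ug (idx0 k N) s
  rw [Finset.prod_congr rfl fun s _ => h1 s, Equiv.prod_comp finProdFinEquiv.symm
    (fun p : Fin k × Fin (2 * N) => Polynomial.X - Polynomial.C (xR F p.1)),
    Fintype.prod_prod_type]
  refine Finset.prod_congr rfl fun i _ => ?_
  change ∏ _y : Fin (2 * N), (Polynomial.X - Polynomial.C (xR F i)) = _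
  rw [Finset.prod_const, Finset.card_univ, Fintype.card_fin]

lemma XL_rec (K : ℕ) (m : ℤ) :
    ∑ j ∈ Finset.range (K + 1), (PG F K).coeff j • XL (ug F K) (m + j • Lab.one) 1 = 0 := by
  have h1 : ∀ j : ℕ, XL (ug F K) (m + j • Lab.one) 1 =
      -∑ s, (ug F K s (m - 1) * ug F K s 1 ^ j) • MvPolynomial.X s := by
    intro j
    have h0 : m + j • (Lab.one : ℤ) - 1 = m - 1 + j := by
      have : (Lab.one : ℤ) = 1 := rfl
      rw [this, nsmul_eq_mul, mul_one]
      ring
    rw [XL_apply, neg_inj]
    refine Finset.sum_congr rfl fun s _ => ?_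
    rw [T_apply, map_one, mul_one, ← char_nat (ug_char F K), ← (ug_char F K).add, h0]
  have h2 : ∀ j ∈ Finset.range (K + 1), (PG F K).coeff j • XL (ug F K) (m + j • Lab.one) 1 =
      -∑ s, (ug F K s (m - 1) * ((PG F K).coeff j * ug F K s 1 ^ j)) • MvPolynomial.X s := by
    intro j _
    rw [h1, smul_neg, Finset.smul_sum, neg_inj]
    refine Finset.sum_congr rfl fun s _ => ?_
    rw [smul_smul, mul_left_comm]
  rw [Finset.sum_congr rfl h2, Finset.sum_neg_distrib, Finset.sum_comm, neg_eq_zero]
  apply Finset.sum_eq_zero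
  intro s _
  rw [← Finset.sum_smul, ← Finset.mul_sum]
  have h3 : ∑ j ∈ Finset.range (K + 1), (PG F K).coeff j * ug F K s 1 ^ j =
      (PG F K).eval (ug F K s 1) := by
    rw [Polynomial.eval_eq_sum_range, PG_deg]
  rw [h3]
  unfold PG
  rw [Polynomial.eval_prod, Finset.prod_eq_zero (Finset.mem_univ s), mul_zero, zero_smul]
  rw [Polynomial.eval_sub, Polynomial.eval_X, Polynomial.eval_C, sub_self]

/-- The basic element. -/
noncomputable def eta2 (F : Type) [Field F] [CharZero F] {A : Type} [Ring A] [Algebra F A]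
    (e : ℤ → A) (J : Ideal A) (k N : ℕ) : V2 J (idx0 k N) := eta F e J k N

lemma rp_span (J : Ideal A) (k N : ℕ)
    (hV : Dl F ℤ (k + 1) ^ N ∈ aI e (k + 1) (J.restrictScalars F)) (m : ℤ) :
    rp (ug F (k * (2 * N))) (rho2 F e J (idx0 k N)) m (1, eta2 F e J k N) ∈
      Submodule.span (RR F (k * (2 * N))) (Set.range fun i =>
        rp (ug F (k * (2 * N))) (rho2 F e J (idx0 k N)) (sf (k * (2 * N)) i)
          (1, eta2 F e J k N)) := by
  have key := rec_span (fun m : ℤ =>
    rp (ug F (k * (2 * N))) (rho2 F e J (idx0 k N)) m (1, eta2 F e J k N)) (k * (2 * N))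
    (fun j => (PG F (k * (2 * N))).coeff j) ?_ ?_ ?_ m
  · have h1 : (fun i : Fin (k * (2 * N)) =>
        rp (ug F (k * (2 * N))) (rho2 F e J (idx0 k N)) ((i : ℕ) • (Lab.one : ℤ))
          (1, eta2 F e J k N)) = fun i =>
        rp (ug F (k * (2 * N))) (rho2 F e J (idx0 k N)) (sf (k * (2 * N)) i)
          (1, eta2 F e J k N) := by
      funext i
      congr 2
      have : (Lab.one : ℤ) = 1 := rfl
      rw [this, nsmul_eq_mul, mul_one]
      rfl
    rw [← h1]
    exact key
  · have := PG_monic (F := F) (k * (2 * N))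
    unfold Polynomial.Monic Polynomial.leadingCoeff at this
    rwa [PG_deg] at this
  · intro _
    refine ⟨∏ s, -ug F (k * (2 * N)) s (-1), ?_⟩
    unfold PG
    rw [Polynomial.coeff_zero_eq_eval_zero, Polynomial.eval_prod, ← Finset.prod_mul_distrib]
    apply Finset.prod_eq_one
    intro s _
    rw [Polynomial.eval_sub, Polynomial.eval_X, Polynomial.eval_C, zero_sub, neg_mul_neg,
      ← (ug_char F _).add, neg_add_cancel, (ug_char F _).zero]
  · intro m
    have h1 : ∀ j, (PG F (k * (2 * N))).coeff j •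
        rp (ug F (k * (2 * N))) (rho2 F e J (idx0 k N)) (m + j • Lab.one) (1, eta2 F e J k N) =
        ((PG F (k * (2 * N))).coeff j • XL (ug F (k * (2 * N))) (m + j • Lab.one) 1,
          (PG F (k * (2 * N))).coeff j • rho2 F e J (idx0 k N) (m + j • Lab.one)
            (eta2 F e J k N)) := fun j => rfl
    rw [Finset.sum_congr rfl fun j _ => h1 j]
    apply Prod.ext
    · rw [Prod.fst_sum]
      exact XL_rec (k * (2 * N)) m
    · rw [Prod.snd_sum]
      have h2 := eta_rec J N k hV m
      rw [← PG_map] at h2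
      simp only [Polynomial.coeff_map] at h2
      exact h2

/-- The second component. -/
noncomputable def pt2 (F : Type) [Field F] [CharZero F] {A : Type} [Ring A] [Algebra F A]
    (e : ℤ → A) (J : Ideal A) (k N : ℕ) (u : A) : V2 J (idx0 k N) :=
  (fun n => Submodule.Quotient.mk (u * eta0 F e k N n) : VV (ι := ℤ) J)

lemma pt2_one (J : Ideal A) (k N : ℕ) : pt2 F e J k N 1 = eta2 F e J k N := by
  unfold pt2 eta2 eta
  simp only [one_mul]

lemma pt2_mul (J : Ideal A) (k N : ℕ) (v : ℤ) (u : A) :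
    pt2 F e J k N (e v * u) = rho2 F e J (idx0 k N) v (pt2 F e J k N u) := by
  funext n
  unfold pt2
  change (Submodule.Quotient.mk (e v * u * eta0 F e k N n) : A ⧸ J) =
    e v • (Submodule.Quotient.mk (u * eta0 F e k N n) : A ⧸ J)
  rw [mul_assoc]
  rfl

lemma pt2_add (J : Ideal A) (k N : ℕ) (u u' : A) :
    pt2 F e J k N (u + u') = pt2 F e J k N u + pt2 F e J k N u' := by
  funext n
  change (Submodule.Quotient.mk ((u + u') * eta0 F e k N n) : A ⧸ J) =
    Submodule.Quotient.mk (u * eta0 F e k N n) + Submodule.Quotient.mk (u' * eta0 F e k N n)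
  rw [add_mul]
  rfl

lemma pt2_smul (J : Ideal A) (k N : ℕ) (a : F) (u : A) :
    pt2 F e J k N (a • u) = algebraMap F (RR F (k * (2 * N))) a • pt2 F e J k N u := by
  have h1 : algebraMap F (RR F (k * (2 * N))) a • pt2 F e J k N u =
      (algebraMap F (Rd F ℤ k) a • (fun n => Submodule.Quotient.mk (u * eta0 F e k N n) :
        VV (ι := ℤ) J) : VV (ι := ℤ) J) := by
    have h2 : th F (idx0 k N) (algebraMap F (RR F (k * (2 * N))) a) =
        algebraMap F (Rd F ℤ k) a := AlgHom.commutes _ _
    rw [← h2]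
    rfl
  rw [h1, smul_VV]
  have h3 : ((algebraMap F (Rd F ℤ k) a : Rd F ℤ k) : W.K F ℤ) = algebraMap F (W.K F ℤ) a := rfl
  rw [h3, AlgHom.commutes, Module.algebraMap_end_apply]
  funext n
  unfold pt2
  rw [smul_mul_assoc]
  rfl

/-- The point of an element. -/
noncomputable def pt (F : Type) [Field F] [CharZero F] {A : Type} [Ring A] [Algebra F A]
    (e : ℤ → A) (J : Ideal A) (k N : ℕ)
    (Φ : A →ₐ[F] Module.End F (MvPolynomial (Fin (k * (2 * N))) (RR F (k * (2 * N))))) (u : A) :
    MvPolynomial (Fin (k * (2 * N))) (RR F (k * (2 * N))) × V2 J (idx0 k N) :=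
  (Φ u 1, pt2 F e J k N u)

lemma pt_wd (J : Ideal A) (k N : ℕ)
    (Φ : A →ₐ[F] Module.End F (MvPolynomial (Fin (k * (2 * N))) (RR F (k * (2 * N)))))
    (hΦ : ∀ n f, Φ (e n) f = XL (ug F (k * (2 * N))) n f) (w : List ℤ) :
    pt F e J k N Φ (W.wd e w) =
      Noeth.wd (rp (ug F (k * (2 * N))) (rho2 F e J (idx0 k N))) (1, eta2 F e J k N) w := by
  induction w with
  | nil =>
    rw [W.wd_nil, Noeth.wd_nil]
    unfold pt
    have h1 : Φ 1 = 1 := map_one Φ
    rw [pt2_one, h1]
    rfl
  | cons v w ih =>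
    rw [W.wd_cons, Noeth.wd_cons, ← ih]
    unfold pt
    rw [pt2_mul, map_mul, Module.End.mul_apply, hΦ]
    rfl

lemma pt_mem (J : Ideal A) (k N : ℕ)
    (Φ : A →ₐ[F] Module.End F (MvPolynomial (Fin (k * (2 * N))) (RR F (k * (2 * N)))))
    (hΦ : ∀ n f, Φ (e n) f = XL (ug F (k * (2 * N))) n f) {u : A} {r : ℕ}
    (hu : u ∈ W.Fl F e r) : pt F e J k N Φ u ∈
      Noeth.Fl (rp (ug F (k * (2 * N))) (rho2 F e J (idx0 k N))) (1, eta2 F e J k N) r := by
  unfold W.Fl at hu
  induction hu using Submodule.span_induction with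
  | mem y hy =>
    obtain ⟨w, hw, rfl⟩ := hy
    rw [pt_wd J k N Φ hΦ]
    exact Noeth.wd_mem hw
  | zero =>
    have h1 : pt2 F e J k N (0 : A) = 0 := by
      have := pt2_smul (F := F) (e := e) J k N 0 0
      rwa [zero_smul, map_zero, zero_smul] at this
    unfold pt
    rw [h1, map_zero, LinearMap.zero_apply]
    exact Submodule.zero_mem _
  | add y z _ _ hy hz =>
    have h1 : pt F e J k N Φ (y + z) = pt F e J k N Φ y + pt F e J k N Φ z := by
      unfold pt
      rw [pt2_add, map_add, LinearMap.add_apply]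
      rfl
    rw [h1]
    exact Submodule.add_mem _ hy hz
  | smul a y _ hy =>
    have h1 : pt F e J k N Φ (a • y) = algebraMap F (RR F (k * (2 * N))) a • pt F e J k N Φ y := by
      unfold pt
      rw [pt2_smul, map_smul, LinearMap.smul_apply]
      apply Prod.ext
      · exact (algebraMap_smul (RR F (k * (2 * N))) a (Φ y 1)).symm
      · rfl
    rw [h1]
    exact Submodule.smul_mem _ _ hy

instance (K : ℕ) : IsDomain (RR F K) := NoZeroDivisors.to_isDomain _

/-- The comparison theorem. -/
theorem mem_of_generic (he : IsW F e) (hgen : ∀ x : A, ∃ k, x ∈ W.Fl F e k) {P : TwoSidedIdeal A}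
    (hP : IsPrimeT P) {k N : ℕ} (hV : Dl F ℤ (k + 1) ^ N ∈ aI e (k + 1) (subsp F P))
    (hη : ∃ n, eta0 F e k N n ∉ P)
    (Φ : A →ₐ[F] Module.End F (MvPolynomial (Fin (k * (2 * N))) (RR F (k * (2 * N)))))
    (hΦ : ∀ n f, Φ (e n) f = XL (ug F (k * (2 * N))) n f) {u : A} (hu : Φ u 1 = 0) : u ∈ P := by
  obtain ⟨r, hr⟩ := hgen u
  have h1 := core (ug_char F (k * (2 * N))) (ug_inj F (k * (2 * N)))
    (rho2 F e P.asIdeal (idx0 k N)) (eta2 F e P.asIdeal k N) (rp_comm P.asIdeal (idx0 k N) he)
    (fun m => rp_span P.asIdeal k N hV m) r _ (pt_mem P.asIdeal k N Φ hΦ hr) hu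
  have h2 : pt2 F e P.asIdeal k N u = 0 := congrArg Prod.snd h1
  have h3 : ∀ n, u * eta0 F e k N n ∈ P := by
    intro n
    have h4 : (Submodule.Quotient.mk (u * eta0 F e k N n) : A ⧸ P.asIdeal) = 0 := congrFun h2 n
    rw [Submodule.Quotient.mk_eq_zero] at h4
    exact TwoSidedIdeal.mem_asIdeal.mp h4
  have h4 : ∀ s ∈ Sp F e k N, u * s ∈ P := by
    intro s hs
    unfold Sp at hs
    induction hs using Submodule.span_induction with
    | mem y hy =>
      obtain ⟨n, rfl⟩ := hy
      exact h3 n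
    | zero => rw [mul_zero]; exact P.zero_mem
    | add y z _ _ hy hz => rw [mul_add]; exact P.add_mem hy hz
    | smul c y _ hy => rw [mul_smul_comm]; exact (subsp F P).smul_mem c hy
  obtain ⟨n, hn⟩ := hη
  exact (hP.elt fun c => right_closed hgen (fun v x hx => Sp_ad he k N v hx) h4 c _
    (eta0_mem_Sp k N n)).resolve_right hn

end rec

end Pool.Agent.R693.Q
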