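import Pool.Agent.R693.Q.Simple
import Pool.Agent.R693.Q.Prod

/-!
The annihilator of the simple module.
-/

set_option autoImplicit false
set_option linter.unusedSectionVars false

namespace Pool.Agent.R693.Q

open MvPolynomial

section lamp
variable {F : Type} [Field F] [CharZero F] {K : ℕ} (lam : Fin K → F)

/-- The product of powers. -/
def lp (κ : Fin K → ℤ) : F := ∏ s, lam s ^ κ s

variable {lam}

lemma lp_ne (h0 : ∀ s, lam s ≠ 0) (κ : Fin K → ℤ) : lp lam κ ≠ 0 := by
  unfold lp
  rw [Finset.prod_ne_zero_iff]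
  intro s _
  exact zpow_ne_zero _ (h0 s)

lemma lp_add (h0 : ∀ s, lam s ≠ 0) (κ κ' : Fin K → ℤ) : lp lam (κ + κ') = lp lam κ * lp lam κ' := by
  unfold lp
  rw [← Finset.prod_mul_distrib]
  refine Finset.prod_congr rfl fun s _ => ?_
  rw [Pi.add_apply, zpow_add₀ (h0 s)]

lemma lp_single (s : Fin K) (m : ℤ) : lp lam (Pi.single s m) = lam s ^ m := by
  unfold lp
  rw [Finset.prod_eq_single s]
  · rw [Pi.single_eq_same]
  · intro r _ hr
    rw [Pi.single_eq_of_ne hr, zpow_zero]
  · intro h; exact absurd (Finset.mem_univ s) h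

end lamp

section GG
variable {F : Type} [Field F] [CharZero F] {K : ℕ}

variable (F K) in
/-- Formal skew polynomials. -/
abbrev GG := (Fin K → ℤ) →₀ MvPolynomial (Fin K) F

/-- One summand of the action. -/
noncomputable def xg1 (F : Type) [Field F] {K : ℕ} (n : ℤ) (s : Fin K) : GG F K →ₗ[F] GG F K :=
  Finsupp.lsum F fun κ => (Finsupp.lsingle (κ + Pi.single s (n - 1))) ∘ₗ
    (LinearMap.mulLeft F (X s) ∘ₗ (sh (Pi.single s (n - 1))).toLinearMap)

/-- The action. -/
noncomputable def xg (F : Type) [Field F] {K : ℕ} (n : ℤ) : GG F K →ₗ[F] GG F K :=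
  -∑ s, xg1 F n s

lemma xg_single (n : ℤ) (κ : Fin K → ℤ) (g : MvPolynomial (Fin K) F) :
    xg F n (Finsupp.single κ g) =
      -∑ s, Finsupp.single (κ + Pi.single s (n - 1)) (X s * sh (Pi.single s (n - 1)) g) := by
  unfold xg xg1
  rw [LinearMap.neg_apply, LinearMap.sum_apply]
  congr 1
  refine Finset.sum_congr rfl fun s _ => ?_
  rw [Finsupp.lsum_single]
  rfl

/-- The operator of a formal skew polynomial. -/
noncomputable def Jt (lam : Fin K → F) : GG F K →ₗ[F] Module.End F (MvPolynomial (Fin K) F) :=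
  Finsupp.lsum F fun κ => lp lam κ •
    ((LinearMap.mulRight F ((sh κ).toLinearMap : Module.End F (MvPolynomial (Fin K) F))) ∘ₗ
      LinearMap.mul F (MvPolynomial (Fin K) F))

lemma Jt_single (lam : Fin K → F) (κ : Fin K → ℤ) (g q : MvPolynomial (Fin K) F) :
    Jt lam (Finsupp.single κ g) q = lp lam κ • (g * sh κ q) := by
  unfold Jt
  rw [Finsupp.lsum_single]
  rfl

lemma Jt_xg {lam : Fin K → F} (h0 : ∀ s, lam s ≠ 0) (n : ℤ) (γ : GG F K)
    (q : MvPolynomial (Fin K) F) : Jt lam (xg F n γ) q = XL (uu lam) n (Jt lam γ q) := by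
  induction γ using Finsupp.induction_linear with
  | zero => simp
  | add f g hf hg => rw [map_add, map_add, map_add, LinearMap.add_apply, LinearMap.add_apply,
      hf, hg, map_add]
  | single κ g =>
    rw [xg_single, Jt_single, map_neg, map_sum, LinearMap.neg_apply, LinearMap.sum_apply,
      XL_apply, neg_inj]
    refine Finset.sum_congr rfl fun s _ => ?_
    rw [Jt_single, T_apply, map_smul, map_mul, sh_add, lp_add h0, lp_single, mul_smul_comm,
      smul_smul, mul_assoc, mul_comm (lp lam κ), add_comm κ]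
    rfl

/-- The inclusion of coefficients. -/
noncomputable def ic (F : Type) [Field F] (K : ℕ) :
    MvPolynomial (Fin K) F →ₐ[F] MvPolynomial (Fin K) (RR F K) :=
  aeval (fun i => X i)

lemma ic_X (i : Fin K) : ic F K (X i) = X i := by
  unfold ic
  rw [aeval_X]

lemma ic_C (a : F) : ic F K (C a) = C (algebraMap F (RR F K) a) := by
  unfold ic
  rw [aeval_C, IsScalarTower.algebraMap_apply F (RR F K) (MvPolynomial (Fin K) (RR F K)),
    algebraMap_eq]

lemma ic_sh (κ : Fin K → ℤ) (g : MvPolynomial (Fin K) F) : sh κ (ic F K g) = ic F K (sh κ g) := by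
  induction g using MvPolynomial.induction_on with
  | C a => rw [sh_C, ic_C, sh_C]
  | add p q hp hq => rw [map_add, map_add, hp, hq, map_add, map_add]
  | mul_X p i hp =>
    have hX : sh κ (ic F K (X i)) = ic F K (sh κ (X i)) := by
      have h0 : algebraMap F (RR F K) ((κ i : ℤ) : F) = ((κ i : ℤ) : RR F K) := map_intCast _ _
      rw [ic_X, sh_X, sh_X, map_add, ic_X, ic_C, h0]
    rw [map_mul (ic F K), map_mul (sh κ), hp, hX, map_mul (sh κ) p, map_mul (ic F K)]

/-- The generic vector of a formal skew polynomial. -/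
noncomputable def Jc (F : Type) [Field F] (K : ℕ) : GG F K →ₗ[F] MvPolynomial (Fin K) (RR F K) :=
  Finsupp.lsum F fun κ =>
    (LinearMap.mulLeft F (C (AddMonoidAlgebra.single κ 1 : RR F K))) ∘ₗ (ic F K).toLinearMap

lemma Jc_single (κ : Fin K → ℤ) (g : MvPolynomial (Fin K) F) :
    Jc F K (Finsupp.single κ g) = (AddMonoidAlgebra.single κ 1 : RR F K) • ic F K g := by
  unfold Jc
  rw [Finsupp.lsum_single, smul_eq_C_mul]
  rfl

lemma Jc_xg (n : ℤ) (γ : GG F K) : Jc F K (xg F n γ) = XL (ug F K) n (Jc F K γ) := by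
  induction γ using Finsupp.induction_linear with
  | zero => simp
  | add f g hf hg => rw [map_add, map_add, map_add, hf, hg, map_add]
  | single κ g =>
    rw [xg_single, Jc_single, map_neg, map_sum, XL_apply, neg_inj]
    refine Finset.sum_congr rfl fun s _ => ?_
    have h1 : ug F K s (n - 1) * (AddMonoidAlgebra.single κ 1 : RR F K) =
        AddMonoidAlgebra.single (κ + Pi.single s (n - 1)) 1 := by
      unfold ug
      rw [AddMonoidAlgebra.single_mul_single, one_mul, add_comm]
    rw [Jc_single, T_apply, map_smul, mul_smul_comm, smul_smul, h1, ic_sh, map_mul (ic F K), ic_X]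

/-- The vector of a word. -/
noncomputable def gw (F : Type) [Field F] (K : ℕ) : List ℤ → GG F K
  | [] => Finsupp.single 0 1
  | n :: w => xg F n (gw F K w)

variable {A : Type} [Ring A] [Algebra F A] {e : ℤ → A}

lemma gw_Jc (Φ : A →ₐ[F] Module.End F (MvPolynomial (Fin K) (RR F K)))
    (hΦ : ∀ n f, Φ (e n) f = XL (ug F K) n f) (w : List ℤ) :
    Jc F K (gw F K w) = Φ (W.wd e w) 1 := by
  induction w with
  | nil =>
    have h1 : Φ 1 = 1 := map_one Φ
    rw [W.wd_nil, h1, gw, Jc_single, map_one, ← AddMonoidAlgebra.one_def, one_smul]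
    rfl
  | cons v w ih =>
    have h1 : Φ (e v * W.wd e w) = Φ (e v) * Φ (W.wd e w) := map_mul Φ _ _
    rw [W.wd_cons, h1, Module.End.mul_apply, hΦ, gw, Jc_xg, ih]

lemma gw_Jt {lam : Fin K → F} (h0 : ∀ s, lam s ≠ 0)
    (Φ : A →ₐ[F] Module.End F (MvPolynomial (Fin K) F))
    (hΦ : ∀ n f, Φ (e n) f = XR (uu lam) n f) (w : List ℤ) (q : MvPolynomial (Fin K) F) :
    Jt lam (gw F K w) (PI (Fin K) F * q) = PI (Fin K) F * Φ (W.wd e w) q := by
  induction w with
  | nil =>
    have h1 : Φ 1 = 1 := map_one Φ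
    rw [W.wd_nil, h1, gw, Jt_single, sh_zero, one_mul, Module.End.one_apply]
    have : lp lam 0 = 1 := by
      unfold lp
      simp
    rw [this, one_smul]
  | cons v w ih =>
    have h1 : Φ (e v * W.wd e w) = Φ (e v) * Φ (W.wd e w) := map_mul Φ _ _
    rw [W.wd_cons, h1, Module.End.mul_apply, hΦ, gw, Jt_xg h0, ih, XL_PI]

lemma sh_inj : Function.Injective fun κ : Fin K → ℤ =>
    ((sh κ : MvPolynomial (Fin K) F →ₐ[F] MvPolynomial (Fin K) F) :
      MvPolynomial (Fin K) F →* MvPolynomial (Fin K) F) := by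
  intro κ κ' h
  funext i
  have h1 := congrArg (fun f : MvPolynomial (Fin K) F →* MvPolynomial (Fin K) F => f (X i)) h
  have h2 : sh κ (X i : MvPolynomial (Fin K) F) = sh κ' (X i) := h1
  rw [sh_X, sh_X] at h2
  have h3 := C_injective (Fin K) F (add_left_cancel h2)
  exact_mod_cast h3

lemma PI_ne : PI (Fin K) F ≠ 0 := by
  unfold PI
  rw [Finset.prod_ne_zero_iff]
  intro s _
  exact X_ne_zero s

/-- Linear independence of the shifts. -/
lemma Jt_inj {lam : Fin K → F} (h0 : ∀ s, lam s ≠ 0) {γ : GG F K}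
    (h : ∀ q, Jt lam γ (PI (Fin K) F * q) = 0) : γ = 0 := by
  have hLI := (linearIndependent_monoidHom (MvPolynomial (Fin K) F) (MvPolynomial (Fin K) F)).comp
    _ (sh_inj (F := F) (K := K))
  rw [linearIndependent_iff'] at hLI
  have h1 := hLI γ.support (fun κ => lp lam κ • (γ κ * sh κ (PI (Fin K) F))) (by
    funext q
    rw [Finset.sum_apply, Pi.zero_apply, ← h q]
    have h2 : γ = ∑ κ ∈ γ.support, Finsupp.single κ (γ κ) := (Finsupp.sum_single γ).symm
    conv_rhs => rw [h2]
    rw [map_sum, LinearMap.sum_apply]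
    refine Finset.sum_congr rfl fun κ _ => ?_
    rw [Jt_single, map_mul, Pi.smul_apply, smul_eq_mul, smul_mul_assoc, mul_assoc]
    rfl)
  ext1 κ
  by_contra hκ
  have h2 := h1 κ (Finsupp.mem_support_iff.mpr hκ)
  rw [smul_eq_zero, mul_eq_zero] at h2
  rcases h2 with h2 | h2 | h2
  · exact lp_ne h0 κ h2
  · exact hκ h2
  · have h3 := congrArg (sh (-κ)) h2
    rw [sh_add, neg_add_cancel, sh_zero, map_zero] at h3
    exact PI_ne h3

/-- The annihilator of the simple module consists of elements vanishing on the generic vector. -/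
theorem generic_of_ann (hgen : ∀ x : A, ∃ k, x ∈ W.Fl F e k) {lam : Fin K → F}
    (h0 : ∀ s, lam s ≠ 0)
    (Φc : A →ₐ[F] Module.End F (MvPolynomial (Fin K) (RR F K)))
    (hΦc : ∀ n f, Φc (e n) f = XL (ug F K) n f)
    (Φ : A →ₐ[F] Module.End F (MvPolynomial (Fin K) F))
    (hΦ : ∀ n f, Φ (e n) f = XR (uu lam) n f) {u : A} (hu : Φ u = 0) : Φc u 1 = 0 := by
  have hex : ∃ γ : GG F K, Jc F K γ = Φc u 1 ∧
      ∀ q, Jt lam γ (PI (Fin K) F * q) = PI (Fin K) F * Φ u q := by
    obtain ⟨r, hr⟩ := hgen u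
    clear hu
    unfold W.Fl at hr
    induction hr using Submodule.span_induction with
    | mem y hy =>
      obtain ⟨w, _, rfl⟩ := hy
      exact ⟨gw F K w, gw_Jc Φc hΦc w, gw_Jt h0 Φ hΦ w⟩
    | zero => exact ⟨0, by simp, by simp⟩
    | add y z _ _ hy hz =>
      obtain ⟨γ, h1, h2⟩ := hy
      obtain ⟨γ', h3, h4⟩ := hz
      refine ⟨γ + γ', by rw [map_add, map_add, h1, h3, LinearMap.add_apply], fun q => ?_⟩
      rw [map_add, LinearMap.add_apply, h2, h4, map_add, LinearMap.add_apply, mul_add]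
    | smul a y _ hy =>
      obtain ⟨γ, h1, h2⟩ := hy
      refine ⟨a • γ, by rw [map_smul, map_smul, h1, LinearMap.smul_apply], fun q => ?_⟩
      rw [map_smul, LinearMap.smul_apply, h2, map_smul, LinearMap.smul_apply, mul_smul_comm]
  obtain ⟨γ, h1, h2⟩ := hex
  have h3 : γ = 0 := by
    apply Jt_inj h0
    intro q
    rw [h2, hu, LinearMap.zero_apply, mul_zero]
  rw [← h1, h3, map_zero]

end GG

end Pool.Agent.R693.Q
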