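import Pool.Agent.R693.Q.Ops

/-!
Simplicity of the modules of polynomials under difference operators.
-/

set_option autoImplicit false
set_option linter.unusedSectionVars false

namespace Pool.Agent.R693.Q

open MvPolynomial

section general
variable {σ : Type} [DecidableEq σ] [Fintype σ] {R : Type*} [CommRing R]

/-- The operators of the simple module. -/
noncomputable def XR (u : σ → ℤ → R) (n : ℤ) : Module.End R (MvPolynomial σ R) :=
  -∑ s, u s (n - 1) • ((sh (Pi.single s (n - 1))).toLinearMap ∘ₗ LinearMap.mulLeft R (X s))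

lemma XR_apply (u : σ → ℤ → R) (n : ℤ) (q : MvPolynomial σ R) :
    XR u n q = -∑ s, u s (n - 1) • sh (Pi.single s (n - 1)) (X s * q) := by
  unfold XR
  rw [LinearMap.neg_apply, LinearMap.sum_apply]
  rfl

variable (σ R) in
/-- The product of the variables. -/
noncomputable def PI : MvPolynomial σ R := ∏ s, X s

lemma PI_eq (s : σ) : PI σ R = X s * ∏ r ∈ Finset.univ.erase s, X r :=
  (Finset.mul_prod_erase _ _ (Finset.mem_univ s)).symm

lemma XL_PI (u : σ → ℤ → R) (n : ℤ) (q : MvPolynomial σ R) :
    XL u n (PI σ R * q) = PI σ R * XR u n q := by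
  rw [XL_apply, XR_apply, mul_neg, Finset.mul_sum]
  congr 1
  refine Finset.sum_congr rfl fun s _ => ?_
  rw [T_apply, mul_smul_comm]
  congr 1
  have h1 : sh (Pi.single s (n - 1)) (∏ r ∈ Finset.univ.erase s, (X r : MvPolynomial σ R)) =
      ∏ r ∈ Finset.univ.erase s, X r := by
    rw [map_prod]
    refine Finset.prod_congr rfl fun r hr => ?_
    rw [sh_X, Pi.single_eq_of_ne (Finset.ne_of_mem_erase hr), Int.cast_zero, C_0, add_zero]
  rw [PI_eq s, map_mul, map_mul, map_mul, h1]
  ring

/-- The Witt relations. -/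
lemma XR_comm [IsDomain R] {u : σ → ℤ → R} (hu : IsChar u) (m n : ℤ) :
    XR u m * XR u n - XR u n * XR u m = ((n - m : ℤ) : R) • XR u (m + n - 1) := by
  have hP : PI σ R ≠ 0 := by
    unfold PI
    rw [Finset.prod_ne_zero_iff]
    intro s _
    exact X_ne_zero s
  apply LinearMap.ext
  intro q
  have h1 := congrArg (fun g => g (PI σ R * q)) (XL_comm hu m n)
  simp only [LinearMap.sub_apply, Module.End.mul_apply, LinearMap.smul_apply, XL_PI] at h1 ⊢
  rw [← mul_sub, ← mul_smul_comm] at h1
  exact mul_left_cancel₀ hP h1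

lemma eval_sh (x : σ → R) (κ : σ → ℤ) (f : MvPolynomial σ R) :
    eval x (sh κ f) = eval (fun i => x i + ((κ i : ℤ) : R)) f := by
  induction f using MvPolynomial.induction_on with
  | C a => rw [sh_C, eval_C, eval_C]
  | add p q hp hq => rw [map_add, map_add, map_add, hp, hq]
  | mul_X p i hp => rw [map_mul, map_mul, map_mul, hp, sh_X, map_add, eval_X, eval_X, eval_C]

end general

variable {σ : Type} [DecidableEq σ] [Fintype σ] {F : Type*} [Field F] [CharZero F]

/-- The characters of points. -/
def uu (lam : σ → F) (s : σ) (m : ℤ) : F := lam s ^ m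

lemma uu_char {lam : σ → F} (h0 : ∀ s, lam s ≠ 0) : IsChar (uu lam) where
  add s m n := zpow_add₀ (h0 s) m n
  zero _ := zpow_zero _

section isolate

variable (N : Submodule F (MvPolynomial σ F))

/-- The shift. -/
def EE : Module.End F (ℤ → MvPolynomial σ F ⧸ N) where
  toFun a := fun m => a (m + 1)
  map_add' _ _ := rfl
  map_smul' _ _ := rfl

/-- The basic sequences. -/
noncomputable def bf (lam : σ → F) (s : σ) (f : MvPolynomial σ F) : ℤ → MvPolynomial σ F ⧸ N :=
  fun m => Submodule.Quotient.mk (lam s ^ m • sh (Pi.single s m) f)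

lemma EE_bf {lam : σ → F} (h0 : ∀ s, lam s ≠ 0) (s : σ) (f : MvPolynomial σ F) :
    (EE N - lam s • (1 : Module.End F (ℤ → MvPolynomial σ F ⧸ N))) (bf N lam s f) =
      lam s • bf N lam s (sh (Pi.single s 1) f - f) := by
  funext m
  rw [LinearMap.sub_apply, LinearMap.smul_apply, Module.End.one_apply, Pi.sub_apply, Pi.smul_apply,
    Pi.smul_apply]
  change bf N lam s f (m + 1) - _ = _
  unfold bf
  rw [← Submodule.Quotient.mk_smul, ← Submodule.Quotient.mk_smul, ← Submodule.Quotient.mk_sub]
  congr 1
  rw [map_sub, sh_add, ← Pi.single_add, zpow_add_one₀ (h0 s), smul_sub, smul_sub, smul_smul,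
    smul_smul, mul_comm (lam s)]

lemma EE_pow_bf {lam : σ → F} (h0 : ∀ s, lam s ≠ 0) (s : σ) (d : ℕ) : ∀ f ∈ LT σ F d,
    ((EE N - lam s • (1 : Module.End F (ℤ → MvPolynomial σ F ⧸ N))) ^ d) (bf N lam s f) = 0 := by
  induction d with
  | zero =>
    intro f hf
    rw [LT_zero hf, pow_zero, Module.End.one_apply]
    funext m
    unfold bf
    rw [map_zero, smul_zero]
    rfl
  | succ d ih =>
    intro f hf
    rw [pow_succ, Module.End.mul_apply, EE_bf N h0, map_smul, ih _ (sh_sub_mem _ hf), smul_zero]

variable {N}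

lemma isolate {lam : σ → F} (hinj : Function.Injective lam) (h0 : ∀ s, lam s ≠ 0)
    (hN : ∀ n, ∀ q ∈ N, XR (uu lam) n q ∈ N) {q : MvPolynomial σ F} (hq : q ∈ N) (s : σ)
    (m : ℤ) : sh (Pi.single s m) (X s * q) ∈ N := by
  have hind : iSupIndep (fun s => (EE N).maxGenEigenspace (lam s)) :=
    (Module.End.independent_maxGenEigenspace (EE N)).comp hinj
  rw [iSupIndep_iff_finsetSum_eq_zero_imp_eq_zero] at hind
  have h1 := hind Finset.univ (fun s => bf N lam s (X s * q)) (by
    intro s _
    rw [Module.End.mem_maxGenEigenspace]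
    obtain ⟨d, hd⟩ := exists_LT (X s * q)
    exact ⟨d, EE_pow_bf N h0 s d _ hd⟩) (by
    funext m
    rw [Finset.sum_apply]
    unfold bf
    have h2 : ∑ s, (Submodule.Quotient.mk (lam s ^ m • sh (Pi.single s m) (X s * q)) :
        MvPolynomial σ F ⧸ N) =
        (Submodule.mkQ N) (∑ s, lam s ^ m • sh (Pi.single s m) (X s * q)) := by
      rw [map_sum]
      rfl
    rw [h2, Pi.zero_apply, Submodule.mkQ_apply, Submodule.Quotient.mk_eq_zero]
    have h3 := hN (m + 1) q hq
    rw [XR_apply, add_sub_cancel_right] at h3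
    have h4 := N.neg_mem h3
    rwa [neg_neg] at h4) s (Finset.mem_univ s)
  have h2 := congrFun h1 m
  unfold bf at h2
  rw [Pi.zero_apply, Submodule.Quotient.mk_eq_zero] at h2
  have h3 := N.smul_mem (lam s ^ m)⁻¹ h2
  rwa [smul_smul, inv_mul_cancel₀ (zpow_ne_zero _ (h0 s)), one_smul] at h3

end isolate

/-- The difference operator. -/
noncomputable def DD (s : σ) (f : MvPolynomial σ F) : MvPolynomial σ F := sh (Pi.single s 1) f - f

lemma DD_eq_zero {s : σ} {q : MvPolynomial σ F} (h : DD s (DD s (X s * q)) = 0) : DD s q = 0 := by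
  have h1 : ∀ m : ℕ, sh (Pi.single s (m : ℤ)) (X s * q) =
      X s * q + (m : F) • DD s (X s * q) := by
    intro m
    induction m with
    | zero =>
      rw [Nat.cast_zero, Pi.single_zero, sh_zero, Nat.cast_zero, zero_smul, add_zero]
    | succ m ih =>
      have h2 : (Pi.single s ((m + 1 : ℕ) : ℤ) : σ → ℤ) = Pi.single s 1 + Pi.single s (m : ℤ) := by
        rw [← Pi.single_add]
        congr 1
        push_cast
        ring
      have h3 : sh (Pi.single s 1) (DD s (X s * q)) = DD s (X s * q) := by
        rw [← sub_eq_zero]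
        exact h
      have h4 : sh (Pi.single s 1) (X s * q) = X s * q + DD s (X s * q) := by
        unfold DD
        abel
      rw [h2, ← sh_add, ih, map_add, map_smul, h3, h4]
      push_cast
      rw [add_smul, one_smul]
      abel
  have h2 : q = DD s (X s * q) := by
    apply funext_set (fun i => if i = s then Set.range (fun m : ℕ => -((m : F) + 1)) else Set.univ)
    · intro i
      split_ifs with hi
      · apply Set.infinite_range_of_injective
        intro a b hab
        have h3 : (a : F) = b := by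
          beta_reduce at hab
          linear_combination -hab
        exact_mod_cast h3
      · exact Set.infinite_univ
    · intro x hx
      have hxs := hx s (Set.mem_univ s)
      beta_reduce at hxs
      rw [if_pos rfl] at hxs
      obtain ⟨m, hm⟩ := hxs
      beta_reduce at hm
      have h3 := congrArg (eval x) (h1 (m + 1))
      rw [map_mul (sh _), map_mul, sh_X, Pi.single_eq_same, map_add, map_add, eval_X, eval_C,
        smul_eval, map_mul, eval_X, ← hm] at h3
      push_cast at h3
      have h4 : ((m : F) + 1) ≠ 0 := by exact_mod_cast Nat.succ_ne_zero m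
      apply mul_left_cancel₀ h4
      linear_combination h3
  have h3 : DD s (DD s (X s * q)) = DD s q := by rw [← h2]
  rw [← h3]
  exact h

lemma const_of_DD {q : MvPolynomial σ F} (h : ∀ s, DD s q = 0) : q = C (eval 0 q) := by
  have h1 : ∀ (s : σ) (m : ℕ), sh (Pi.single s (m : ℤ)) q = q := by
    intro s m
    induction m with
    | zero => rw [Nat.cast_zero, Pi.single_zero, sh_zero]
    | succ m ih =>
      have h2 : (Pi.single s ((m + 1 : ℕ) : ℤ) : σ → ℤ) = Pi.single s (m : ℤ) + Pi.single s 1 := by
        rw [← Pi.single_add]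
        congr 1
      have h3 : sh (Pi.single s 1) q = q := by
        rw [← sub_eq_zero]
        exact h s
      rw [h2, ← sh_add, h3, ih]
  have h2 : ∀ (κ : σ → ℕ) (S : Finset σ), sh (∑ s ∈ S, Pi.single s (κ s : ℤ)) q = q := by
    intro κ S
    induction S using Finset.induction_on with
    | empty => rw [Finset.sum_empty, sh_zero]
    | insert a S ha ih => rw [Finset.sum_insert ha, ← sh_add, ih, h1]
  apply funext_set (fun _ => Set.range (fun m : ℕ => (m : F)))
  · intro i
    exact Set.infinite_range_of_injective Nat.cast_injective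
  · intro x hx
    choose κ hκ using fun i => hx i (Set.mem_univ i)
    rw [eval_C]
    have h3 := h2 κ Finset.univ
    rw [Finset.univ_sum_single] at h3
    conv_rhs => rw [← h3]
    rw [eval_sh]
    congr 2
    funext i
    rw [Pi.zero_apply, zero_add, ← hκ i]
    push_cast
    rfl

/-- Simplicity. -/
theorem simple_aux {lam : σ → F} (hinj : Function.Injective lam) (h0 : ∀ s, lam s ≠ 0)
    {N : Submodule F (MvPolynomial σ F)} (hN : ∀ n, ∀ q ∈ N, XR (uu lam) n q ∈ N) (hne : N ≠ ⊥) :
    N = ⊤ := by
  classical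
  have hX : ∀ s, ∀ q ∈ N, X s * q ∈ N := by
    intro s q hq
    have := isolate hinj h0 hN hq s 0
    rwa [Pi.single_zero, sh_zero] at this
  have hex : ∃ d, ∃ q ∈ N, q ≠ 0 ∧ q ∈ LT σ F d := by
    obtain ⟨q, hq, hq0⟩ := Submodule.exists_mem_ne_zero_of_ne_bot hne
    obtain ⟨d, hd⟩ := exists_LT q
    exact ⟨d, q, hq, hq0, hd⟩
  obtain ⟨q, hq, hq0, hqd⟩ := Nat.find_spec hex
  obtain ⟨d, hd⟩ : ∃ d, Nat.find hex = d + 1 := by
    apply Nat.exists_eq_succ_of_ne_zero
    intro h
    rw [h] at hqd
    exact hq0 (LT_zero hqd)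
  rw [hd] at hqd
  have hD : ∀ s, DD s q = 0 := by
    intro s
    apply DD_eq_zero
    by_contra hcon
    have h1 : DD s (DD s (X s * q)) ∈ N := by
      have h2 : DD s (DD s (X s * q)) = sh (Pi.single s 2) (X s * q) -
          sh (Pi.single s 1) (X s * q) - (sh (Pi.single s 1) (X s * q) - X s * q) := by
        unfold DD
        rw [map_sub, sh_add, ← Pi.single_add]
        rfl
      rw [h2]
      exact N.sub_mem (N.sub_mem (isolate hinj h0 hN hq s 2) (isolate hinj h0 hN hq s 1))
        (N.sub_mem (isolate hinj h0 hN hq s 1) (hX s q hq))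
    have h2 : DD s (DD s (X s * q)) ∈ LT σ F d :=
      sh_sub_mem _ (sh_sub_mem _ (X_mul_mem s hqd))
    exact Nat.find_min hex (m := d) (by omega) ⟨_, h1, hcon, h2⟩
  have hc := const_of_DD hD
  have hc0 : eval 0 q ≠ 0 := by
    intro h
    apply hq0
    rw [hc, h, C_0]
  have h1 : (1 : MvPolynomial σ F) ∈ N := by
    have h2 := N.smul_mem (eval 0 q)⁻¹ hq
    rw [hc, smul_eq_C_mul, ← C_mul, eval_C, inv_mul_cancel₀ hc0, C_1] at h2
    exact h2
  rw [eq_top_iff]
  intro f _
  induction f using MvPolynomial.induction_on with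
  | C a =>
    have : (C a : MvPolynomial σ F) = a • 1 := by rw [smul_eq_C_mul, mul_one]
    rw [this]
    exact N.smul_mem a h1
  | add p q hp hq => exact N.add_mem (hp trivial) (hq trivial)
  | mul_X p i hp =>
    rw [mul_comm]
    exact hX i p (hp trivial)

end Pool.Agent.R693.Q
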