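import Pool.Agent.R693.R.PBW

/-!
The zero ideal of the enveloping algebra of the Witt algebra is primitive: a highest weight vector of
nonzero weight is not annihilated by the discriminant elements.
-/

set_option autoImplicit false
set_option linter.unusedSectionVars false

namespace Pool.Agent.R693.Q

open W

/-! ### Sorting with weights -/

section sort
variable {F : Type} [Field F] [CharZero F] {A : Type} [Ring A] [Algebra F A] {e : ℤ → A}

/-- The nonnegative part. -/
def ye (e : ℤ → A) (i : ℕ) : A := e ((i : ℤ) + 1)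

lemma ye_comm (he : IsW F e) (i j : ℕ) :
    ye e i * ye e j - ye e j * ye e i = (((j : ℤ) - i : ℤ) : F) • ye e (i + j) := by
  have h1 := he ((i : ℤ) + 1) ((j : ℤ) + 1) ((((i + j : ℕ) : ℤ)) + 1) (by
    have h2 : (Lab.one : ℤ) = 1 := rfl
    rw [h2]
    push_cast
    ring)
  unfold ye
  rw [h1]
  congr 2
  change ((j : ℤ) + 1) - ((i : ℤ) + 1) = _
  ring

variable (F) (e) in
/-- Short words of given weight. -/
def SW (k s : ℕ) : Submodule F A :=
  Submodule.span F {x | ∃ w : List ℕ, w.length < k ∧ w.sum = s ∧ x = wd (ye e) w}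

lemma SW_mul (v : ℕ) {k s : ℕ} {x : A} (hx : x ∈ SW F e k s) : ye e v * x ∈ SW F e (k + 1) (v + s) := by
  unfold SW at hx
  induction hx using Submodule.span_induction with
  | mem y hy =>
    obtain ⟨w, h1, h2, rfl⟩ := hy
    apply Submodule.subset_span
    exact ⟨v :: w, by simpa using h1, by rw [List.sum_cons, h2], by rw [wd_cons]⟩
  | zero => rw [mul_zero]; exact Submodule.zero_mem _
  | add y z _ _ hy hz => rw [mul_add]; exact Submodule.add_mem _ hy hz
  | smul a y _ hy => rw [mul_smul_comm]; exact Submodule.smul_mem _ _ hy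

lemma SW_perm (he : IsW F e) {w w' : List ℕ} (h : w.Perm w') :
    wd (ye e) w - wd (ye e) w' ∈ SW F e w.length w.sum := by
  induction h with
  | nil => rw [sub_self]; exact Submodule.zero_mem _
  | cons v h ih =>
    rw [wd_cons, wd_cons, ← mul_sub, List.length_cons, List.sum_cons]
    exact SW_mul v ih
  | swap x y l =>
    have h1 : wd (ye e) (y :: x :: l) - wd (ye e) (x :: y :: l) =
        (((x : ℤ) - y : ℤ) : F) • wd (ye e) ((y + x) :: l) := by
      rw [wd_cons, wd_cons, wd_cons, wd_cons, wd_cons, ← mul_assoc, ← mul_assoc, ← sub_mul,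
        ye_comm he, smul_mul_assoc]
    rw [h1]
    apply Submodule.smul_mem
    apply Submodule.subset_span
    exact ⟨(y + x) :: l, by simp, by simp [add_assoc], rfl⟩
  | trans h1 h2 ih1 ih2 =>
    have := Submodule.add_mem _ ih1 (by rw [h1.length_eq, h1.sum_eq]; exact ih2)
    rwa [sub_add_sub_cancel] at this

variable (F) (e) in
/-- Sorted words of given weight. -/
def So (s : ℕ) : Submodule F A :=
  Submodule.span F {x | ∃ w : List ℕ, w.Pairwise (· ≤ ·) ∧ w.sum = s ∧ x = wd (ye e) w}

lemma mem_So (he : IsW F e) : ∀ (k : ℕ) (w : List ℕ), w.length = k →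
    wd (ye e) w ∈ So F e w.sum := by
  intro k
  induction k using Nat.strong_induction_on with
  | _ k ih =>
    intro w hw
    have hp : w.Perm (w.insertionSort (· ≤ ·)) := (List.perm_insertionSort (· ≤ ·) w).symm
    have h1 := SW_perm he hp
    have h2 : SW F e w.length w.sum ≤ So F e w.sum := by
      apply Submodule.span_le.mpr
      rintro z ⟨m, h3, h4, rfl⟩
      rw [← h4]
      exact ih m.length (by omega) m rfl
    have h3 : wd (ye e) (w.insertionSort (· ≤ ·)) ∈ So F e w.sum := by
      apply Submodule.subset_span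
      exact ⟨_, List.pairwise_insertionSort (· ≤ ·) w, hp.sum_eq.symm, rfl⟩
    have h4 := Submodule.add_mem _ (h2 h1) h3
    rwa [sub_add_cancel] at h4

lemma split_list (l : List ℤ) (hl : l.Pairwise (· ≤ ·)) : ∃ (l' : List ℤ) (m : List ℕ),
    l = l' ++ m.map (fun i : ℕ => (i : ℤ) + 1) ∧ (∀ x ∈ l', x ≤ 0) ∧ m.Pairwise (· ≤ ·) := by
  induction l with
  | nil => exact ⟨[], [], rfl, by simp, List.Pairwise.nil⟩
  | cons a t ih =>
    rw [List.pairwise_cons] at hl
    obtain ⟨l', m, h1, h2, h3⟩ := ih hl.2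
    by_cases ha : a ≤ 0
    · refine ⟨a :: l', m, by rw [h1]; rfl, ?_, h3⟩
      intro x hx
      rw [List.mem_cons] at hx
      rcases hx with rfl | hx
      · exact ha
      · exact h2 x hx
    · have h4 : l' = [] := by
        rw [List.eq_nil_iff_forall_not_mem]
        intro x hx
        have h5 := hl.1 x (by rw [h1]; exact List.mem_append_left _ hx)
        have h6 := h2 x hx
        omega
      rw [h4, List.nil_append] at h1
      refine ⟨[], (a - 1).toNat :: m, ?_, by simp, ?_⟩
      · rw [List.nil_append, List.map_cons, ← h1]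
        congr 1
        omega
      · rw [List.pairwise_cons]
        refine ⟨?_, h3⟩
        intro i hi
        have h5 := hl.1 ((i : ℤ) + 1) (by
          rw [h1]
          exact List.mem_map_of_mem hi)
        omega

end sort

section functional
variable {F : Type} [Field F] [CharZero F] {A : Type} [Ring A] [Algebra F A] {e : ℤ → A}
  (β : Module.Basis {l : List ℤ // l.Pairwise (· ≤ ·)} F A)

open Classical in
/-- The functional. -/
noncomputable def phi : A →ₗ[F] F :=
  β.constr F fun l => if ∀ x ∈ l.1, x = 1 then 1 else 0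

variable {β}

open Classical in
lemma phi_wd (hβ : ∀ l, β l = wd e l.1) {l : List ℤ} (hl : l.Pairwise (· ≤ ·)) :
    phi β (wd e l) = if ∀ x ∈ l, x = 1 then 1 else 0 := by
  have h1 : wd e l = β ⟨l, hl⟩ := (hβ ⟨l, hl⟩).symm
  rw [h1]
  exact β.constr_basis F _ _

lemma wd_ye (m : List ℕ) : wd (ye e) m = wd e (m.map fun i : ℕ => (i : ℤ) + 1) := by
  unfold wd
  rw [List.map_map]
  rfl

lemma phi_So (hβ : ∀ l, β l = wd e l.1) {l' : List ℤ} (hl' : l'.Pairwise (· ≤ ·))
    (hneg : ∀ x ∈ l', x ≤ 0) {s : ℕ} (hs : l' ≠ [] ∨ s ≠ 0) {z : A} (hz : z ∈ So F e s) :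
    phi β (wd e l' * z) = 0 := by
  classical
  unfold So at hz
  induction hz using Submodule.span_induction with
  | mem y hy =>
    obtain ⟨m, h1, h2, rfl⟩ := hy
    rw [wd_ye]
    have h3 : wd e l' * wd e (m.map fun i : ℕ => (i : ℤ) + 1) =
        wd e (l' ++ m.map fun i : ℕ => (i : ℤ) + 1) := by
      unfold wd
      rw [List.map_append, List.prod_append]
    rw [h3, phi_wd hβ, if_neg]
    · intro h4
      rcases hs with hs | hs
      · obtain ⟨x, hx⟩ := List.exists_mem_of_ne_nil l' hs
        have h5 := h4 x (List.mem_append_left _ hx)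
        have h6 := hneg x hx
        omega
      · apply hs
        rw [← h2, List.sum_eq_zero_iff]
        intro i hi
        have h5 := h4 ((i : ℤ) + 1) (List.mem_append_right _ (List.mem_map_of_mem hi))
        omega
    · rw [List.pairwise_append]
      refine ⟨hl', ?_, ?_⟩
      · rw [List.pairwise_map]
        exact h1.imp (fun h => by omega)
      · intro a ha b hb
        rw [List.mem_map] at hb
        obtain ⟨i, _, rfl⟩ := hb
        have := hneg a ha
        omega
  | zero => rw [mul_zero, map_zero]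
  | add y z _ _ hy hz => rw [mul_add, map_add, hy, hz, add_zero]
  | smul a y _ hy => rw [mul_smul_comm, map_smul, hy, smul_zero]

lemma phi_mul (he : IsW F e) (hβ : ∀ l, β l = wd e l.1) (i : ℕ) (a : A) :
    phi β (a * ye e i) = if i = 0 then phi β a else 0 := by
  classical
  have key : ∀ l : {l : List ℤ // l.Pairwise (· ≤ ·)},
      phi β (β l * ye e i) = if i = 0 then phi β (β l) else 0 := by
    rintro ⟨l, hl⟩
    rw [hβ]
    dsimp only
    obtain ⟨l', m, h1, h2, h3⟩ := split_list l hl
    have hl' : l'.Pairwise (· ≤ ·) := by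
      rw [h1, List.pairwise_append] at hl
      exact hl.1
    have h4 : wd e l = wd e l' * wd (ye e) m := by
      rw [wd_ye, h1]
      unfold wd
      rw [List.map_append, List.prod_append]
    have h5 : wd (ye e) m * ye e i = wd (ye e) (m ++ [i]) := by
      unfold wd
      rw [List.map_append, List.prod_append]
      simp
    have h6 : wd (ye e) (m ++ [i]) ∈ So F e (m.sum + i) := by
      have := mem_So he _ (m ++ [i]) rfl
      rwa [List.sum_append, List.sum_singleton] at this
    have h7 : wd (ye e) m ∈ So F e m.sum := mem_So he _ m rfl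
    rw [h4, mul_assoc, h5]
    by_cases hc : l' ≠ [] ∨ m.sum ≠ 0
    · rw [phi_So hβ hl' h2 (s := m.sum + i) (by
        rcases hc with hc | hc
        · exact Or.inl hc
        · exact Or.inr (by omega)) h6, phi_So hβ hl' h2 hc h7]
      simp
    · push Not at hc
      obtain ⟨hc1, hc2⟩ := hc
      split_ifs with hi
      · subst hi
        have hm : ∀ x ∈ m, x = 0 := by
          rw [List.sum_eq_zero_iff] at hc2
          exact hc2
        rw [hc1, wd_nil, one_mul, one_mul, wd_ye, wd_ye, phi_wd hβ, phi_wd hβ, if_pos, if_pos]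
        · intro x hx
          rw [List.mem_map] at hx
          obtain ⟨i, hi, rfl⟩ := hx
          rw [hm i hi]; rfl
        · intro x hx
          rw [List.mem_map] at hx
          obtain ⟨i, hi, rfl⟩ := hx
          rw [List.mem_append, List.mem_singleton] at hi
          rcases hi with hi | rfl
          · rw [hm i hi]; rfl
          · rfl
        · rw [List.pairwise_map]
          exact h3.imp (fun h => by omega)
        · rw [List.pairwise_map, List.pairwise_append]
          refine ⟨h3.imp (fun h => by omega), List.pairwise_singleton _ _, ?_⟩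
          intro a ha b hb
          rw [List.mem_singleton] at hb
          rw [hm a ha, hb]
      · exact phi_So hβ hl' h2 (Or.inr (by omega)) h6
  have h1 : (phi β).comp (LinearMap.mulRight F (ye e i)) =
      if i = 0 then phi β else 0 := by
    apply β.ext
    intro l
    rw [LinearMap.comp_apply, LinearMap.mulRight_apply, key]
    split_ifs <;> rfl
  have h2 := congrArg (fun g => g a) h1
  beta_reduce at h2
  rw [LinearMap.comp_apply, LinearMap.mulRight_apply] at h2
  rw [h2]
  split_ifs <;> rfl

lemma phi_one (hβ : ∀ l, β l = wd e l.1) : phi β (1 : A) = 1 := by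
  classical
  have h1 := phi_wd hβ (l := []) List.Pairwise.nil
  rw [wd_nil] at h1
  rw [h1]
  simp

/-- The left ideal of the highest weight vector. -/
noncomputable def hwI (β : Module.Basis {l : List ℤ // l.Pairwise (· ≤ ·)} F A) : Ideal A where
  carrier := {a | ∀ b, phi β (b * a) = 0}
  add_mem' := by
    intro a a' ha ha' b
    rw [mul_add, map_add, ha, ha', add_zero]
  zero_mem' := by
    intro b
    rw [mul_zero, map_zero]
  smul_mem' := by
    intro c a ha b
    rw [smul_eq_mul, ← mul_assoc]
    exact ha _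

lemma mem_hwI {a : A} : a ∈ hwI β ↔ ∀ b, phi β (b * a) = 0 := Iff.rfl

lemma hwI_ne_top (hβ : ∀ l, β l = wd e l.1) : hwI β ≠ ⊤ := by
  intro h
  have h1 : (1 : A) ∈ hwI β := by rw [h]; trivial
  have h2 := h1 1
  rw [mul_one, phi_one hβ] at h2
  exact one_ne_zero h2

lemma hw_pos (he : IsW F e) (hβ : ∀ l, β l = wd e l.1) {n : ℤ} (hn : 2 ≤ n) : e n ∈ hwI β := by
  intro b
  have h1 := phi_mul he hβ (n - 1).toNat b
  have h2 : ye e (n - 1).toNat = e n := by
    unfold ye
    congr 1
    omega
  rw [h2, if_neg (by omega)] at h1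
  exact h1

lemma hw_one (he : IsW F e) (hβ : ∀ l, β l = wd e l.1) : e 1 - 1 ∈ hwI β := by
  intro b
  have h1 := phi_mul he hβ 0 b
  have h2 : ye e 0 = e 1 := by
    unfold ye
    congr 1
  rw [h2, if_pos rfl] at h1
  rw [mul_sub, map_sub, h1, mul_one, sub_self]

end functional

section zero
variable {F : Type} [Field F] [CharZero F] {A : Type} [Ring A] [Algebra F A] {e : ℤ → A}

lemma om_one {L : Ideal A} (h1 : e 1 - 1 ∈ L) (j : ℕ) {m : G ℤ} (hm : ∀ i < j, m i = 1) :
    om e j m - 1 ∈ L := by
  induction j with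
  | zero =>
    change (1 : A) - 1 ∈ L
    rw [sub_self]
    exact L.zero_mem
  | succ j ih =>
    have h2 : om e (j + 1) m - 1 = e (m j) * (om e j m - 1) + (e (m j) - 1) := by
      change e (m j) * om e j m - 1 = _
      noncomm_ring
    rw [h2, hm j (Nat.lt_succ_self j)]
    exact L.add_mem (L.mul_mem_left _ (ih fun i hi => hm i (by omega))) h1

lemma om_pos {L : Ideal A} (h1 : e 1 - 1 ∈ L) (h2 : ∀ n : ℤ, 2 ≤ n → e n ∈ L) {j d : ℕ}
    (hjd : j + 1 ≤ d) {m : G ℤ} (hm : ∀ i < j, m i = 1) (hj : 2 ≤ m j) : om e d m ∈ L := by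
  induction d, hjd using Nat.le_induction with
  | base =>
    have h3 : om e (j + 1) m = e (m j) * (om e j m - 1) + e (m j) := by
      change e (m j) * om e j m = _
      noncomm_ring
    rw [h3]
    exact L.add_mem (L.mul_mem_left _ (om_one h1 j hm)) (h2 _ hj)
  | succ d _ ih =>
    change e (m d) * om e d m ∈ L
    exact L.mul_mem_left _ ih

lemma act_eq_sum (p : K F ℤ) (h : G ℤ → A) (n : G ℤ) :
    act A p h n = p.coeff.sum fun κ r => r • h (n + κ) := by
  induction p using AddMonoidAlgebra.induction_linear with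
  | zero => simp
  | add p q hp hq =>
    rw [map_add, LinearMap.add_apply, Pi.add_apply, hp, hq, AddMonoidAlgebra.coeff_add,
      Finsupp.sum_add_index']
    · intro κ; rw [zero_smul]
    · intro κ r s; rw [add_smul]
  | single κ r =>
    rw [act_single, AddMonoidAlgebra.coeff_single, Finsupp.sum_single_index]
    rw [zero_smul]

/-- Discriminant elements acting on a highest weight vector by nonzero scalars. -/
lemma exists_scalar {L : Ideal A} (h1 : e 1 - 1 ∈ L) (h2 : ∀ n : ℤ, 2 ≤ n → e n ∈ L) (d N : ℕ) :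
    ∃ (n : G ℤ) (c : F), c ≠ 0 ∧ eta0 F e d N n - algebraMap F A c ∈ L := by
  classical
  set D : K F ℤ := Dl F ℤ d ^ N with hD
  have hne : D.coeff.support.Nonempty := by
    rw [Finset.nonempty_iff_ne_empty]
    intro h
    apply Dl_pow_ne (F := F) d N
    rw [← hD]
    ext κ
    have h3 : κ ∉ D.coeff.support := by rw [h]; exact Finset.notMem_empty κ
    rw [Finsupp.notMem_support_iff.mp h3]
    rfl
  obtain ⟨μ, hμ, hmin⟩ := Finset.exists_min_image D.coeff.support (fun κ => toLex κ) hne
  have hlab := supp_lab (Subalgebra.pow_mem _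
    (Dl_mem_adj (F := F) (ι := ℤ) (S := {a | a < d}) (k := d) fun i hi => hi) N)
  set n : G ℤ := fun i => 1 - μ i with hn
  refine ⟨n, D.coeff μ, Finsupp.mem_support_iff.mp hμ, ?_⟩
  unfold eta0
  rw [← hD, act_eq_sum, Finsupp.sum, ← Finset.add_sum_erase _ _ hμ, Algebra.algebraMap_eq_smul_one]
  have h3 : D.coeff μ • om e d (n + μ) +
      ∑ κ ∈ D.coeff.support.erase μ, D.coeff κ • om e d (n + κ) - D.coeff μ • (1 : A) =
      D.coeff μ • (om e d (n + μ) - 1) +
        ∑ κ ∈ D.coeff.support.erase μ, D.coeff κ • om e d (n + κ) := by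
    rw [smul_sub]
    abel
  rw [h3]
  refine (L.restrictScalars F).add_mem ((L.restrictScalars F).smul_mem _ ?_)
    ((L.restrictScalars F).sum_mem fun κ hκ => (L.restrictScalars F).smul_mem _ ?_)
  · apply om_one h1
    intro i _
    rw [Pi.add_apply, hn]
    ring
  · obtain ⟨hκ1, hκ2⟩ := Finset.mem_erase.mp hκ
    have h4 : toLex μ < toLex κ := by
      apply lt_of_le_of_ne (hmin κ hκ2)
      intro h
      exact hκ1 (toLex_inj.mp h).symm
    obtain ⟨j, hj1, hj2⟩ := h4
    have hj3 : ∀ i < j, μ i = κ i := hj1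
    have hj4 : μ j < κ j := hj2
    have hjd : j < d := by
      by_contra hcon
      have h5 := hlab μ (Finsupp.mem_support_iff.mp hμ) j (not_lt.mp hcon)
      have h6 := hlab κ (Finsupp.mem_support_iff.mp hκ2) j (not_lt.mp hcon)
      omega
    apply om_pos h1 h2 (j := j) hjd
    · intro i hi
      rw [Pi.add_apply, hn]
      beta_reduce
      rw [hj3 i hi]
      ring
    · rw [Pi.add_apply, hn]
      beta_reduce
      omega

/-- The zero ideal is primitive. -/
theorem exists_faithful (he : IsW F e) (hgen : ∀ x : A, ∃ k, x ∈ Fl F e k)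
    (β : Module.Basis {l : List ℤ // l.Pairwise (· ≤ ·)} F A) (hβ : ∀ l, β l = wd e l.1) :
    ∃ M : Ideal A, M.IsMaximal ∧ ∀ a : A, (∀ x : A ⧸ M, a • x = 0) → a = 0 := by
  obtain ⟨M, hM, hLM⟩ := Ideal.exists_le_maximal (hwI β) (hwI_ne_top hβ)
  refine ⟨M, hM, ?_⟩
  let I : TwoSidedIdeal A := TwoSidedIdeal.mk' {a | ∀ x : A ⧸ M, a • x = 0}
    (fun x => zero_smul _ x)
    (fun {a b} ha hb x => by rw [add_smul, ha, hb, add_zero])
    (fun {a} ha x => by rw [neg_smul, ha, neg_zero])
    (fun {a b} hb x => by rw [mul_smul, hb, smul_zero])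
    (fun {a b} ha x => by rw [mul_smul]; exact ha _)
  have hI : ∀ {a : A}, a ∈ I ↔ ∀ x : A ⧸ M, a • x = 0 := fun {a} => by
    change a ∈ TwoSidedIdeal.mk' _ _ _ _ _ _ ↔ _
    rw [TwoSidedIdeal.mem_mk']
    rfl
  by_contra hcon
  push Not at hcon
  obtain ⟨a, ha, ha0⟩ := hcon
  have hIne : I ≠ ⊥ := by
    intro h
    apply ha0
    have := hI.mpr ha
    rwa [h, TwoSidedIdeal.mem_bot] at this
  obtain ⟨d, N, hV⟩ := exists_Van_ideal (F := F) he hgen hIne
  obtain ⟨n, c, hc, hmem⟩ := exists_scalar (F := F) (hLM (hw_one he hβ))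
    (fun n hn => hLM (hw_pos he hβ hn)) d N
  have h1 := hI.mp (mem_subsp.mp (hV n)) (Submodule.Quotient.mk 1)
  have h2 : eta0 F e d N n ∈ M := by
    have h3 : eta0 F e d N n • (Submodule.Quotient.mk 1 : A ⧸ M) =
        Submodule.Quotient.mk (eta0 F e d N n) := by
      rw [← Submodule.Quotient.mk_smul, smul_eq_mul, mul_one]
    change eta0 F e d N n • (Submodule.Quotient.mk 1 : A ⧸ M) = 0 at h1
    rw [h3, Submodule.Quotient.mk_eq_zero] at h1
    exact h1
  have h3 : algebraMap F A c ∈ M := by
    have := M.sub_mem h2 hmem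
    rwa [sub_sub_cancel] at this
  apply hM.ne_top
  rw [Ideal.eq_top_iff_one]
  have h4 := M.mul_mem_left (algebraMap F A c⁻¹) h3
  rwa [← map_mul, inv_mul_cancel₀ hc, map_one] at h4

end zero

end Pool.Agent.R693.Q
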